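import Pool.Agent.Helper75.MW.Defs

/-!
PROJECT MW, module F-14. The lower bound, real inequalities.

`s = p.1`, `gs = G_s`, `gt = G_t`, `W = √w`, `w = s² (1 + gs²) + (1 + gt)²`, `A² = ‖X_s‖² = 1 + gs²`, `B² = ‖X_t‖² = s² + (1 + gt)²`.
`bound_inner` (`|s| ≤ 1`, `m = -1`): `w ≤ 6`, `A² ≤ 2`, `B² ≤ 5`: `1 = |m| = W (1/W) ≤ W K A B ≤ K √60 ≤ 25 K`.
`bound_outer` (`1 ≤ |s|`): `w ≤ 6 s²`, `A² ≤ 2`, `B² ≤ 5 s²`; one of `|l / s|`, `|m / s²|`, `|n / s³|` is `≥ 1/2` (otherwise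
`(..)² + 2 (..)² + (..)² < 1`). If `|l| ≥ |s| / 2`: `|s| / 2 ≤ |l| ≤ W K A² ≤ √6 |s| K 2`; if `|m| ≥ s² / 2`: `s² / 2 ≤ W K A B ≤ √60 s² K`; if
`|n| ≥ |s|³ / 2`: `|s|³ / 2 ≤ W K B² ≤ √6 |s| K 5 s²`; in every case `K ≥ 1/25` (`10 √6 < 25`).
-/

set_option autoImplicit false

namespace Pool.Agent.Helper75.MW

private lemma bsq {x w c : ℝ} (hw : 0 < w) (h : |x / Real.sqrt w| ≤ c) : x ^ 2 ≤ w * c ^ 2 := by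
  have h1 : (x / Real.sqrt w) ^ 2 ≤ c ^ 2 := by
    rw [← sq_abs]
    exact pow_le_pow_left₀ (abs_nonneg _) h 2
  rw [div_pow, Real.sq_sqrt hw.le, div_le_iff₀ hw] at h1
  linarith

private lemma bfin {K : ℝ} (hK : 0 ≤ K) (h : 1 ≤ 625 * K ^ 2) : 1 / 25 ≤ K := by
  by_contra hc
  push Not at hc
  have h1 : K ^ 2 < (1 / 25) ^ 2 := pow_lt_pow_left₀ hc hK (by norm_num)
  linarith

theorem bound_inner (s gs gt m K A B : ℝ) (hs : |s| ≤ 1) (hgs : |gs| ≤ 1) (hgt : |gt| ≤ 1)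
    (hw : 0 < s ^ 2 * (1 + gs ^ 2) + (1 + gt) ^ 2) (hA0 : 0 ≤ A) (hB0 : 0 ≤ B) (hA : A ^ 2 = 1 + gs ^ 2)
    (hB : B ^ 2 = s ^ 2 + (1 + gt) ^ 2) (hK : 0 ≤ K) (hm : m = -1)
    (h2 : |m / Real.sqrt (s ^ 2 * (1 + gs ^ 2) + (1 + gt) ^ 2)| ≤ K * (A * B)) : 1 / 25 ≤ K := by
  have hs2 : s ^ 2 ≤ 1 := by rw [← sq_abs]; exact pow_le_one₀ (abs_nonneg _) hs
  have hgs2 : gs ^ 2 ≤ 1 := by rw [← sq_abs]; exact pow_le_one₀ (abs_nonneg _) hgs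
  have hgt2 : (1 + gt) ^ 2 ≤ 4 := by
    have := abs_le.1 hgt
    nlinarith
  obtain ⟨w, hwd⟩ : ∃ w, w = s ^ 2 * (1 + gs ^ 2) + (1 + gt) ^ 2 := ⟨_, rfl⟩
  rw [← hwd] at hw h2
  have hw6 : w ≤ 6 := by
    have h3 : s ^ 2 * (1 + gs ^ 2) ≤ 1 * 2 := mul_le_mul hs2 (by linarith) (by positivity) (by norm_num)
    linarith
  have h3 := bsq hw h2
  rw [hm] at h3
  have e : w * (K * (A * B)) ^ 2 = K ^ 2 * (w * (A ^ 2 * B ^ 2)) := by ring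
  rw [e] at h3
  have hA2 : A ^ 2 ≤ 2 := by rw [hA]; linarith
  have hB2 : B ^ 2 ≤ 5 := by rw [hB]; linarith
  have h4 : A ^ 2 * B ^ 2 ≤ 2 * 5 := mul_le_mul hA2 hB2 (sq_nonneg _) (by norm_num)
  have h5 : w * (A ^ 2 * B ^ 2) ≤ 6 * (2 * 5) := mul_le_mul hw6 h4 (by positivity) (by norm_num)
  have h6 : K ^ 2 * (w * (A ^ 2 * B ^ 2)) ≤ K ^ 2 * (6 * (2 * 5)) :=
    mul_le_mul_of_nonneg_left h5 (sq_nonneg _)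
  refine bfin hK ?_
  nlinarith [sq_nonneg K]

theorem bound_outer (s gs gt l m n K A B : ℝ) (hs : 1 ≤ |s|) (hgs : |gs| ≤ 1) (hgt : |gt| ≤ 1)
    (hw : 0 < s ^ 2 * (1 + gs ^ 2) + (1 + gt) ^ 2) (hA0 : 0 ≤ A) (hB0 : 0 ≤ B) (hA : A ^ 2 = 1 + gs ^ 2)
    (hB : B ^ 2 = s ^ 2 + (1 + gt) ^ 2) (hK : 0 ≤ K)
    (hlow : 1 < (l / s) ^ 2 + 2 * (m / s ^ 2) ^ 2 + (n / s ^ 3) ^ 2)
    (h1 : |l / Real.sqrt (s ^ 2 * (1 + gs ^ 2) + (1 + gt) ^ 2)| ≤ K * (A * A))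
    (h2 : |m / Real.sqrt (s ^ 2 * (1 + gs ^ 2) + (1 + gt) ^ 2)| ≤ K * (A * B))
    (h3 : |n / Real.sqrt (s ^ 2 * (1 + gs ^ 2) + (1 + gt) ^ 2)| ≤ K * (B * B)) : 1 / 25 ≤ K := by
  have hs2 : 1 ≤ s ^ 2 := by rw [← sq_abs]; exact one_le_pow₀ hs
  have hgs2 : gs ^ 2 ≤ 1 := by rw [← sq_abs]; exact pow_le_one₀ (abs_nonneg _) hgs
  have hgt2 : (1 + gt) ^ 2 ≤ 4 := by
    have := abs_le.1 hgt
    nlinarith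
  obtain ⟨w, hwd⟩ : ∃ w, w = s ^ 2 * (1 + gs ^ 2) + (1 + gt) ^ 2 := ⟨_, rfl⟩
  rw [← hwd] at hw h1 h2 h3
  have hw6 : w ≤ 6 * s ^ 2 := by
    have h4 : s ^ 2 * (1 + gs ^ 2) ≤ s ^ 2 * 2 := mul_le_mul_of_nonneg_left (by linarith) (sq_nonneg _)
    linarith
  have hA2 : A ^ 2 ≤ 2 := by rw [hA]; linarith
  have hB2 : B ^ 2 ≤ 5 * s ^ 2 := by rw [hB]; linarith
  have hs0 : 0 < s ^ 2 := by linarith
  have hAA : A ^ 2 * A ^ 2 ≤ 2 * 2 := mul_le_mul hA2 hA2 (sq_nonneg _) (by norm_num)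
  have hAB : A ^ 2 * B ^ 2 ≤ 2 * (5 * s ^ 2) := mul_le_mul hA2 hB2 (sq_nonneg _) (by norm_num)
  have hBB : B ^ 2 * B ^ 2 ≤ (5 * s ^ 2) * (5 * s ^ 2) :=
    mul_le_mul hB2 hB2 (sq_nonneg _) (by positivity)
  have key : ∀ x Q R : ℝ, 0 ≤ Q → Q ≤ R → x ^ 2 ≤ K ^ 2 * (w * Q) → x ^ 2 ≤ K ^ 2 * (6 * s ^ 2 * R) := by
    intro x Q R hQ hQR hx
    refine hx.trans (mul_le_mul_of_nonneg_left ?_ (sq_nonneg _))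
    exact mul_le_mul hw6 hQR hQ (by positivity)
  have e1 : l ^ 2 ≤ K ^ 2 * (6 * s ^ 2 * (2 * 2)) := by
    refine key l (A ^ 2 * A ^ 2) _ (by positivity) hAA ?_
    have := bsq hw h1
    calc l ^ 2 ≤ w * (K * (A * A)) ^ 2 := this
      _ = K ^ 2 * (w * (A ^ 2 * A ^ 2)) := by ring
  have e2 : m ^ 2 ≤ K ^ 2 * (6 * s ^ 2 * (2 * (5 * s ^ 2))) := by
    refine key m (A ^ 2 * B ^ 2) _ (by positivity) hAB ?_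
    have := bsq hw h2
    calc m ^ 2 ≤ w * (K * (A * B)) ^ 2 := this
      _ = K ^ 2 * (w * (A ^ 2 * B ^ 2)) := by ring
  have e3 : n ^ 2 ≤ K ^ 2 * (6 * s ^ 2 * ((5 * s ^ 2) * (5 * s ^ 2))) := by
    refine key n (B ^ 2 * B ^ 2) _ (by positivity) hBB ?_
    have := bsq hw h3
    calc n ^ 2 ≤ w * (K * (B * B)) ^ 2 := this
      _ = K ^ 2 * (w * (B ^ 2 * B ^ 2)) := by ring
  have f1 : (l / s) ^ 2 ≤ 24 * K ^ 2 := by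
    rw [div_pow, div_le_iff₀ hs0]
    linarith
  have f2 : (m / s ^ 2) ^ 2 ≤ 60 * K ^ 2 := by
    rw [div_pow, div_le_iff₀ (by positivity)]
    calc m ^ 2 ≤ _ := e2
      _ = 60 * K ^ 2 * (s ^ 2) ^ 2 := by ring
  have f3 : (n / s ^ 3) ^ 2 ≤ 150 * K ^ 2 := by
    have h0 : 0 < (s ^ 3) ^ 2 := by
      have : (s ^ 3) ^ 2 = (s ^ 2) ^ 3 := by ring
      rw [this]
      positivity
    rw [div_pow, div_le_iff₀ h0]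
    calc n ^ 2 ≤ _ := e3
      _ = 150 * K ^ 2 * (s ^ 3) ^ 2 := by ring
  refine bfin hK ?_
  nlinarith [sq_nonneg K]

end Pool.Agent.Helper75.MW
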