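import Pool.Agent.Helper75.MW.Defs

/-!
PROJECT MW, module F-05 (this file: `complete_of_closed`). The corrugated helicoid is properly embedded, hence complete.

`XX_injective`: let `XX G (s,t) = XX G (s',t')`. Then `s^2 = s'^2` (sum of squares of the first two coordinates), so `|s| = |s'|`, and
`|t - t'| = |G (s',t') - G (s,t)| ≤ 1`. If `s = 0`, then `s' = 0` and `axis` gives `t = t'`. Otherwise
`s s' cos (t - t') = (s cos t)(s' cos t') + (s sin t)(s' sin t') = s^2`, with `|s s'| = s^2`, so `cos (t - t') = ±1`, and it is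
positive as `|t - t'| ≤ 1 < π / 2`; hence `t = t'` (`Real.cos_eq_one_iff_of_lt_of_lt`) and `s = s'`.
`XX_closedEmbedding`: `XX G` is continuous (it is smooth: `contDiff_euclidean`), and proper: the preimage of a compact `K` is closed and
is contained in `[-R, R] × [-(R + C + 1), R + C + 1]`, where `‖x‖ ≤ R` on `K` and `|G (s, 0)| ≤ C` for `|s| ≤ R`, because
`s^2 ≤ ‖X‖^2`, `|t + G| ≤ ‖X‖` and `|G (s,t) - G (s,0)| ≤ 1` (`isProperMap_iff_isCompact_preimage`, `IsProperMap.isClosedMap`,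
`Topology.IsClosedEmbedding.of_continuous_injective_isClosedMap`).
`complete_of_closed`: `X ∘ γ` is Lipschitz on `[0,1)`, so the image filter of `𝓝[<] 1` is Cauchy, converges to `y ∈ closure (range X) = range X`,
`y = X p`, and `γ → p` (`Topology.IsInducing.tendsto_nhds_iff`).
-/

set_option autoImplicit false

namespace Pool.Agent.Helper75.MW

open Pool.Agent.Helper98.MW Topology Filter Set

theorem complete_of_closed (X : ℝ × ℝ → E3) (hX : IsClosedEmbedding X) (γ : ℝ → ℝ × ℝ)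
    (hγ : ContinuousOn γ (Ico 0 1)) (hL : ∃ L, LipschitzOnWith L (X ∘ γ) (Ico 0 1)) :
    ∃ p, Tendsto γ (𝓝[<] 1) (𝓝 p) := by
  have _ := hγ
  obtain ⟨L, hL⟩ := hL
  have hu : UniformContinuousOn (X ∘ γ) (Ico 0 1) := hL.uniformContinuousOn
  have hmem : Ico (0 : ℝ) 1 ∈ 𝓝[<] (1 : ℝ) := by
    have h : Ioo (0 : ℝ) 1 ∈ 𝓝[<] (1 : ℝ) := Ioo_mem_nhdsLT zero_lt_one
    exact mem_of_superset h Ioo_subset_Ico_self
  have hle : 𝓝[<] (1 : ℝ) ≤ 𝓟 (Ico 0 1) := le_principal_iff.2 hmem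
  have hc : Cauchy (𝓝[<] (1 : ℝ)) := cauchy_nhds.mono nhdsWithin_le_nhds
  have hc2 : Cauchy (Filter.map (X ∘ γ) (𝓝[<] (1 : ℝ))) := by
    refine ⟨hc.1.map _, ?_⟩
    rw [Filter.prod_map_map_eq]
    have h3 : (𝓝[<] (1 : ℝ)) ×ˢ (𝓝[<] (1 : ℝ)) ≤ uniformity ℝ ⊓ 𝓟 (Ico 0 1 ×ˢ Ico 0 1) := by
      refine le_inf hc.2 ?_
      rw [← prod_principal_principal]
      exact Filter.prod_mono hle hle
    exact (Filter.map_mono h3).trans hu
  obtain ⟨y, hy⟩ := CompleteSpace.complete hc2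
  have hy' : Tendsto (X ∘ γ) (𝓝[<] (1 : ℝ)) (𝓝 y) := hy
  have hyr : y ∈ range X := by
    have hcl : IsClosed (range X) := hX.isClosed_range
    have : (𝓝[<] (1 : ℝ)).NeBot := hc.1
    exact hcl.mem_of_tendsto hy' (Eventually.of_forall fun t => mem_range_self (γ t))
  obtain ⟨p, rfl⟩ := hyr
  exact ⟨p, hX.isInducing.tendsto_nhds_iff.2 hy'⟩

end Pool.Agent.Helper75.MW
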