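import Pool.Agent.Helper98.MW.E.Defs

/-!
PROJECT MW (MP_0da599_gt, Milnor's conjecture for complete saddle surfaces is FALSE), BLOCK F: geometry of the
corrugated helicoid. Memo: /team-store/memo_MP_0da599_gt_helper98.md (section ASSEMBLY).

The surface is `XX G : ℝ × ℝ → ℝ³`, `XX G (s, t) = (s cos t, s sin t, t + G (s, t))`, with a smooth `G` which satisfies
`Corr G`. Here `H2 f P v u = fderiv ℝ (fderiv ℝ f) P v u` (helper98), and `lL, mM, nN` are the coefficients of the second fundamental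
form multiplied by `W = √(s² (1 + G_s²) + (1 + G_t)²)`.
-/

set_option autoImplicit false

namespace Pool.Agent.Helper75.MW

open Pool.Agent.Helper98.MW

/-- Euclidean three-space. -/
abbrev E3 : Type := EuclideanSpace ℝ (Fin 3)

/-- `L W`. -/
noncomputable def lL (G : ℝ × ℝ → ℝ) (p : ℝ × ℝ) : ℝ := p.1 * H2 G p (1, 0) (1, 0)

/-- `M W`. -/
noncomputable def mM (G : ℝ × ℝ → ℝ) (p : ℝ × ℝ) : ℝ := p.1 * H2 G p (1, 0) (0, 1) - (1 + fderiv ℝ G p (0, 1))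

/-- `N W`. -/
noncomputable def nN (G : ℝ × ℝ → ℝ) (p : ℝ × ℝ) : ℝ :=
  p.1 ^ 2 * fderiv ℝ G p (1, 0) + p.1 * H2 G p (0, 1) (0, 1)

/-- `W ^ 2`. -/
noncomputable def w2 (G : ℝ × ℝ → ℝ) (p : ℝ × ℝ) : ℝ :=
  p.1 ^ 2 * (1 + fderiv ℝ G p (1, 0) ^ 2) + (1 + fderiv ℝ G p (0, 1)) ^ 2

/-- The properties of the corrugation (as a function on the whole parameter plane of the helicoid). -/
structure Corr (G : ℝ × ℝ → ℝ) : Prop where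
  smooth : ContDiff ℝ (⊤ : ℕ∞) G
  axis : ∀ t, G (0, t) = 0
  osc : ∀ s s' t t', |s| = |s'| → |G (s, t) - G (s', t')| ≤ 1
  bs : ∀ p, |fderiv ℝ G p (1, 0)| ≤ 1
  bt : ∀ p, |fderiv ℝ G p (0, 1)| ≤ 1
  neg : ∀ p, lL G p * nN G p < mM G p ^ 2
  inner : ∀ p, |p.1| < 1 → mM G p = -1
  outer : ∀ p, 1 ≤ |p.1| → 1 < (lL G p / p.1) ^ 2 + 2 * (mM G p / p.1 ^ 2) ^ 2 + (nN G p / p.1 ^ 3) ^ 2

/-- The corrugated helicoid. -/
noncomputable def XX (G : ℝ × ℝ → ℝ) (p : ℝ × ℝ) : E3 :=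
  !₂[p.1 * Real.cos p.2, p.1 * Real.sin p.2, p.2 + G p]

/-- `∂X/∂s`. -/
noncomputable def Xs (G : ℝ × ℝ → ℝ) (p : ℝ × ℝ) : E3 :=
  !₂[Real.cos p.2, Real.sin p.2, fderiv ℝ G p (1, 0)]

/-- `∂X/∂t`. -/
noncomputable def Xt (G : ℝ × ℝ → ℝ) (p : ℝ × ℝ) : E3 :=
  !₂[-(p.1 * Real.sin p.2), p.1 * Real.cos p.2, 1 + fderiv ℝ G p (0, 1)]

/-- The cross product of `Xs` and `Xt`. -/
noncomputable def Nn (G : ℝ × ℝ → ℝ) (p : ℝ × ℝ) : E3 :=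
  !₂[(1 + fderiv ℝ G p (0, 1)) * Real.sin p.2 - p.1 * fderiv ℝ G p (1, 0) * Real.cos p.2,
    -((1 + fderiv ℝ G p (0, 1)) * Real.cos p.2) - p.1 * fderiv ℝ G p (1, 0) * Real.sin p.2, p.1]

/-- The unit normal. -/
noncomputable def NN (G : ℝ × ℝ → ℝ) (p : ℝ × ℝ) : E3 := (Real.sqrt (w2 G p))⁻¹ • Nn G p

end Pool.Agent.Helper75.MW
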