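import Pool.Agent.Helper75.MW.DerivG

/-!
PROJECT MW, module F-07 (this file: second derivatives of `XX G`). Derivatives of the parametrization.

Componentwise: for `F : ℝ × ℝ → E3` differentiable, `(fderiv ℝ F p v) i = fderiv ℝ (fun q => F q i) p v` (`fderiv_comp` with
`EuclideanSpace.proj i`), then products, `Real.hasDerivAt_cos` etc.; `ext i; fin_cases i`. For the last coordinates:
`fderiv ℝ (fun q => fderiv ℝ G q u) p v = H2 G p v u` (`fderiv_clm_apply`, `G` is smooth); symmetry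
`H2 G p v u = H2 G p u v` by `second_derivative_symmetric` / `ContDiffAt.isSymmSndFDerivAt`.
-/

set_option autoImplicit false

namespace Pool.Agent.Helper75.MW

open Pool.Agent.Helper98.MW

private theorem vec3 {f0 f1 f2 : ℝ × ℝ → ℝ} {p : ℝ × ℝ} (h0 : DifferentiableAt ℝ f0 p)
    (h1 : DifferentiableAt ℝ f1 p) (h2 : DifferentiableAt ℝ f2 p) (v : ℝ × ℝ) :
    fderiv ℝ (fun q => (!₂[f0 q, f1 q, f2 q] : E3)) p v
      = !₂[fderiv ℝ f0 p v, fderiv ℝ f1 p v, fderiv ℝ f2 p v] := by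
  have hd : DifferentiableAt ℝ (fun q => (!₂[f0 q, f1 q, f2 q] : E3)) p := by
    rw [differentiableAt_euclidean]
    intro i
    fin_cases i
    · simpa using h0
    · simpa using h1
    · simpa using h2
  have key : ∀ i : Fin 3, (fderiv ℝ (fun q => (!₂[f0 q, f1 q, f2 q] : E3)) p v) i
      = fderiv ℝ (fun q => (!₂[f0 q, f1 q, f2 q] : E3) i) p v := by
    intro i
    have h := (EuclideanSpace.proj i : E3 →L[ℝ] ℝ).hasFDerivAt.comp p hd.hasFDerivAt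
    exact (congrArg (fun L : (ℝ × ℝ) →L[ℝ] ℝ => L v) h.fderiv).symm
  ext i
  rw [key i]
  fin_cases i
  · simp
  · simp
  · simp

private theorem diff_fderiv {G : ℝ × ℝ → ℝ} (hG : ContDiff ℝ (⊤ : ℕ∞) G) (u p : ℝ × ℝ) :
    DifferentiableAt ℝ (fun q => fderiv ℝ G q u) p := by
  have h : ContDiff ℝ (⊤ : ℕ∞) (fderiv ℝ G) := hG.fderiv_right (by simp)
  have h2 : ContDiff ℝ (⊤ : ℕ∞) (fun q => fderiv ℝ G q u) := h.clm_apply contDiff_const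
  exact h2.differentiable (by simp) p

private theorem contDiff_fderiv' {G : ℝ × ℝ → ℝ} (hG : ContDiff ℝ (⊤ : ℕ∞) G) (u : ℝ × ℝ) :
    ContDiff ℝ (⊤ : ℕ∞) (fun q => fderiv ℝ G q u) := by
  have h : ContDiff ℝ (⊤ : ℕ∞) (fderiv ℝ G) := hG.fderiv_right (by simp)
  exact h.clm_apply contDiff_const

private theorem hcos (p : ℝ × ℝ) : HasFDerivAt (fun q : ℝ × ℝ => Real.cos q.2)
    (-Real.sin p.2 • ContinuousLinearMap.snd ℝ ℝ ℝ) p :=
  (hasFDerivAt_snd (p := p)).cos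

private theorem hsin (p : ℝ × ℝ) : HasFDerivAt (fun q : ℝ × ℝ => Real.sin q.2)
    (Real.cos p.2 • ContinuousLinearMap.snd ℝ ℝ ℝ) p :=
  (hasFDerivAt_snd (p := p)).sin

private theorem h1sin (p : ℝ × ℝ) : HasFDerivAt (fun q : ℝ × ℝ => -(q.1 * Real.sin q.2))
    (-(p.1 • (Real.cos p.2 • ContinuousLinearMap.snd ℝ ℝ ℝ)
      + Real.sin p.2 • ContinuousLinearMap.fst ℝ ℝ ℝ)) p :=
  ((hasFDerivAt_fst (p := p)).mul (hsin p)).neg

private theorem h1cos (p : ℝ × ℝ) : HasFDerivAt (fun q : ℝ × ℝ => q.1 * Real.cos q.2)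
    (p.1 • (-Real.sin p.2 • ContinuousLinearMap.snd ℝ ℝ ℝ)
      + Real.cos p.2 • ContinuousLinearMap.fst ℝ ℝ ℝ) p :=
  (hasFDerivAt_fst (p := p)).mul (hcos p)

private theorem fderiv_Xs' {G : ℝ × ℝ → ℝ} (hG : ContDiff ℝ (⊤ : ℕ∞) G) (p v : ℝ × ℝ) :
    fderiv ℝ (Xs G) p v = !₂[-Real.sin p.2 * v.2, Real.cos p.2 * v.2, H2 G p v (1, 0)] := by
  have h := vec3 (hcos p).differentiableAt (hsin p).differentiableAt
    (diff_fderiv hG (1, 0) p) v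
  rw [(hcos p).fderiv, (hsin p).fderiv, fderiv_fderiv G hG] at h
  have hX : Xs G = fun q : ℝ × ℝ => !₂[Real.cos q.2, Real.sin q.2, fderiv ℝ G q (1, 0)] := rfl
  rw [hX]
  simpa using h

private theorem fderiv_Xt' {G : ℝ × ℝ → ℝ} (hG : ContDiff ℝ (⊤ : ℕ∞) G) (p v : ℝ × ℝ) :
    fderiv ℝ (Xt G) p v = !₂[-(p.1 * (Real.cos p.2 * v.2) + Real.sin p.2 * v.1),
      p.1 * (-Real.sin p.2 * v.2) + Real.cos p.2 * v.1, H2 G p v (0, 1)] := by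
  have h := vec3 (h1sin p).differentiableAt (h1cos p).differentiableAt
    ((diff_fderiv hG (0, 1) p).const_add 1) v
  rw [(h1sin p).fderiv, (h1cos p).fderiv, fderiv_const_add, fderiv_fderiv G hG] at h
  have hX : Xt G = fun q : ℝ × ℝ =>
      !₂[-(q.1 * Real.sin q.2), q.1 * Real.cos q.2, 1 + fderiv ℝ G q (0, 1)] := rfl
  rw [hX]
  simpa using h

theorem fderiv_Xs_s (G : ℝ × ℝ → ℝ) (hG : ContDiff ℝ (⊤ : ℕ∞) G) (p : ℝ × ℝ) :
    fderiv ℝ (Xs G) p (1, 0) = !₂[0, 0, H2 G p (1, 0) (1, 0)] := by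
  rw [fderiv_Xs' hG]
  simp

theorem fderiv_Xs_t (G : ℝ × ℝ → ℝ) (hG : ContDiff ℝ (⊤ : ℕ∞) G) (p : ℝ × ℝ) :
    fderiv ℝ (Xs G) p (0, 1) = !₂[-Real.sin p.2, Real.cos p.2, H2 G p (1, 0) (0, 1)] := by
  rw [fderiv_Xs' hG, H2_symm G hG p (0, 1) (1, 0)]
  simp

theorem fderiv_Xt_s (G : ℝ × ℝ → ℝ) (hG : ContDiff ℝ (⊤ : ℕ∞) G) (p : ℝ × ℝ) :
    fderiv ℝ (Xt G) p (1, 0) = !₂[-Real.sin p.2, Real.cos p.2, H2 G p (1, 0) (0, 1)] := by
  rw [fderiv_Xt' hG]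
  simp

theorem fderiv_Xt_t (G : ℝ × ℝ → ℝ) (hG : ContDiff ℝ (⊤ : ℕ∞) G) (p : ℝ × ℝ) :
    fderiv ℝ (Xt G) p (0, 1) =
      !₂[-(p.1 * Real.cos p.2), -(p.1 * Real.sin p.2), H2 G p (0, 1) (0, 1)] := by
  rw [fderiv_Xt' hG]
  simp

theorem Xs_contDiff (G : ℝ × ℝ → ℝ) (hG : ContDiff ℝ (⊤ : ℕ∞) G) : ContDiff ℝ (⊤ : ℕ∞) (Xs G) := by
  have h1 : ContDiff ℝ (⊤ : ℕ∞) (fun q : ℝ × ℝ => Real.cos q.2) := Real.contDiff_cos.comp contDiff_snd
  have h2 : ContDiff ℝ (⊤ : ℕ∞) (fun q : ℝ × ℝ => Real.sin q.2) := Real.contDiff_sin.comp contDiff_snd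
  rw [contDiff_euclidean]
  intro i
  fin_cases i
  · simpa [Xs] using h1
  · simpa [Xs] using h2
  · simpa [Xs] using contDiff_fderiv' hG (1, 0)

theorem Xt_contDiff (G : ℝ × ℝ → ℝ) (hG : ContDiff ℝ (⊤ : ℕ∞) G) : ContDiff ℝ (⊤ : ℕ∞) (Xt G) := by
  have h1 : ContDiff ℝ (⊤ : ℕ∞) (fun q : ℝ × ℝ => Real.cos q.2) := Real.contDiff_cos.comp contDiff_snd
  have h2 : ContDiff ℝ (⊤ : ℕ∞) (fun q : ℝ × ℝ => Real.sin q.2) := Real.contDiff_sin.comp contDiff_snd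
  rw [contDiff_euclidean]
  intro i
  fin_cases i
  · simpa [Xt] using (contDiff_fst.mul h2).neg
  · simpa [Xt] using contDiff_fst.mul h1
  · simpa [Xt] using contDiff_const.add (contDiff_fderiv' hG (0, 1))

end Pool.Agent.Helper75.MW
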