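import Pool.Agent.Helper75.MW.Defs

/-!
PROJECT MW, module F-06 (this file: `H2_symm`, `fderiv_fderiv`, first derivatives of `XX G`). Derivatives of the parametrization.

Componentwise: for `F : ℝ × ℝ → E3` differentiable, `(fderiv ℝ F p v) i = fderiv ℝ (fun q => F q i) p v` (`fderiv_comp` with
`EuclideanSpace.proj i`), then products, `Real.hasDerivAt_cos` etc.; `ext i; fin_cases i`. For the last coordinates:
`fderiv ℝ (fun q => fderiv ℝ G q u) p v = H2 G p v u` (`fderiv_clm_apply`, `G` is smooth); symmetry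
`H2 G p v u = H2 G p u v` by `second_derivative_symmetric` / `ContDiffAt.isSymmSndFDerivAt`.
-/

set_option autoImplicit false

namespace Pool.Agent.Helper75.MW

open Pool.Agent.Helper98.MW

private lemma dg_two (G : ℝ × ℝ → ℝ) (hG : ContDiff ℝ (⊤ : ℕ∞) G) : ContDiff ℝ 2 G :=
  hG.of_le (by norm_cast)

theorem H2_symm (G : ℝ × ℝ → ℝ) (hG : ContDiff ℝ (⊤ : ℕ∞) G) (p v u : ℝ × ℝ) : H2 G p v u = H2 G p u v := by
  have h1 : IsSymmSndFDerivAt ℝ G p :=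
    (dg_two G hG).contDiffAt.isSymmSndFDerivAt (by simp [minSmoothness_of_isRCLikeNormedField])
  exact h1 v u

theorem fderiv_fderiv (G : ℝ × ℝ → ℝ) (hG : ContDiff ℝ (⊤ : ℕ∞) G) (p v u : ℝ × ℝ) :
    fderiv ℝ (fun q => fderiv ℝ G q u) p v = H2 G p v u := by
  have h1 : Differentiable ℝ (fderiv ℝ G) :=
    ((dg_two G hG).fderiv_right (m := 1) (by norm_num)).differentiable (by norm_num)
  have h2 := (h1 p).hasFDerivAt.clm_apply (hasFDerivAt_const u p)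
  rw [h2.fderiv]
  simp [H2]

private lemma dg_f0 (p : ℝ × ℝ) : HasFDerivAt (fun q : ℝ × ℝ => q.1 * Real.cos q.2)
    (p.1 • (-(Real.sin p.2) • ContinuousLinearMap.snd ℝ ℝ ℝ) +
      Real.cos p.2 • ContinuousLinearMap.fst ℝ ℝ ℝ) p :=
  (hasFDerivAt_fst (𝕜 := ℝ) (p := p)).mul (hasFDerivAt_snd (𝕜 := ℝ) (p := p)).cos

private lemma dg_f1 (p : ℝ × ℝ) : HasFDerivAt (fun q : ℝ × ℝ => q.1 * Real.sin q.2)
    (p.1 • (Real.cos p.2 • ContinuousLinearMap.snd ℝ ℝ ℝ) +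
      Real.sin p.2 • ContinuousLinearMap.fst ℝ ℝ ℝ) p :=
  (hasFDerivAt_fst (𝕜 := ℝ) (p := p)).mul (hasFDerivAt_snd (𝕜 := ℝ) (p := p)).sin

private lemma dg_f2 (G : ℝ × ℝ → ℝ) (hG : ContDiff ℝ (⊤ : ℕ∞) G) (p : ℝ × ℝ) :
    HasFDerivAt (fun q : ℝ × ℝ => q.2 + G q)
    (ContinuousLinearMap.snd ℝ ℝ ℝ + fderiv ℝ G p) p :=
  (hasFDerivAt_snd (𝕜 := ℝ) (p := p)).add
    (((dg_two G hG).differentiable (by norm_num)) p).hasFDerivAt

private lemma dg_XX (G : ℝ × ℝ → ℝ) (hG : ContDiff ℝ (⊤ : ℕ∞) G) (p v : ℝ × ℝ) :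
    fderiv ℝ (XX G) p v = !₂[v.1 * Real.cos p.2 - p.1 * Real.sin p.2 * v.2,
      v.1 * Real.sin p.2 + p.1 * Real.cos p.2 * v.2, v.2 + fderiv ℝ G p v] := by
  have hd : DifferentiableAt ℝ (XX G) p := by
    refine differentiableAt_euclidean.2 fun i => ?_
    fin_cases i
    · exact (dg_f0 p).differentiableAt
    · exact (dg_f1 p).differentiableAt
    · exact (dg_f2 G hG p).differentiableAt
  have key : ∀ i : Fin 3, HasFDerivAt (fun q => XX G q i)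
      ((EuclideanSpace.proj i : E3 →L[ℝ] ℝ).comp (fderiv ℝ (XX G) p)) p := fun i =>
    ((EuclideanSpace.proj i : E3 →L[ℝ] ℝ).hasFDerivAt).comp p hd.hasFDerivAt
  have k0 : (fderiv ℝ (XX G) p v) 0 = v.1 * Real.cos p.2 - p.1 * Real.sin p.2 * v.2 := by
    have h1 := (key 0).unique (dg_f0 p)
    have h2 := congrArg (fun L : ℝ × ℝ →L[ℝ] ℝ => L v) h1
    have h3 : (fderiv ℝ (XX G) p v) 0 =
        (p.1 • (-(Real.sin p.2) • ContinuousLinearMap.snd ℝ ℝ ℝ) +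
      Real.cos p.2 • ContinuousLinearMap.fst ℝ ℝ ℝ) v := h2
    rw [h3]
    simp
    ring
  have k1 : (fderiv ℝ (XX G) p v) 1 = v.1 * Real.sin p.2 + p.1 * Real.cos p.2 * v.2 := by
    have h1 := (key 1).unique (dg_f1 p)
    have h2 := congrArg (fun L : ℝ × ℝ →L[ℝ] ℝ => L v) h1
    have h3 : (fderiv ℝ (XX G) p v) 1 =
        (p.1 • (Real.cos p.2 • ContinuousLinearMap.snd ℝ ℝ ℝ) +
      Real.sin p.2 • ContinuousLinearMap.fst ℝ ℝ ℝ) v := h2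
    rw [h3]
    simp
    ring
  have k2 : (fderiv ℝ (XX G) p v) 2 = v.2 + fderiv ℝ G p v := by
    have h1 := (key 2).unique (dg_f2 G hG p)
    have h2 := congrArg (fun L : ℝ × ℝ →L[ℝ] ℝ => L v) h1
    have h3 : (fderiv ℝ (XX G) p v) 2 =
        (ContinuousLinearMap.snd ℝ ℝ ℝ + fderiv ℝ G p) v := h2
    rw [h3]
    simp
  ext i
  fin_cases i
  · exact k0
  · exact k1
  · exact k2

theorem fderiv_XX_s (G : ℝ × ℝ → ℝ) (hG : ContDiff ℝ (⊤ : ℕ∞) G) (p : ℝ × ℝ) :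
    fderiv ℝ (XX G) p (1, 0) = Xs G p := by
  rw [dg_XX G hG, Xs]
  simp

theorem fderiv_XX_t (G : ℝ × ℝ → ℝ) (hG : ContDiff ℝ (⊤ : ℕ∞) G) (p : ℝ × ℝ) :
    fderiv ℝ (XX G) p (0, 1) = Xt G p := by
  rw [dg_XX G hG, Xt]
  simp

end Pool.Agent.Helper75.MW
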