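import Pool.Agent.Helper75.MW.Inj

/-!
PROJECT MW, module F-04 (this file: `XX_closedEmbedding`). The corrugated helicoid is properly embedded, hence complete.

`XX_injective`: let `XX G (s,t) = XX G (s',t')`. Then `s^2 = s'^2` (sum of squares of the first two coordinates), so `|s| = |s'|`, and
`|t - t'| = |G (s',t') - G (s,t)| ≤ 1`. If `s = 0`, then `s' = 0` and `axis` gives `t = t'`. Otherwise
`s s' cos (t - t') = (s cos t)(s' cos t') + (s sin t)(s' sin t') = s^2`, with `|s s'| = s^2`, so `cos (t - t') = ±1`, and it is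
positive as `|t - t'| ≤ 1 < π / 2`; hence `t = t'` (`Real.cos_eq_one_iff_of_lt_of_lt`) and `s = s'`.
`XX_closedEmbedding`: `XX G` is continuous (it is smooth: `contDiff_euclidean`), and proper: the preimage of a compact `K` is closed and
is contained in `[-R, R] × [-(R + C + 1), R + C + 1]`, where `‖x‖ ≤ R` on `K` and `|G (s, 0)| ≤ C` for `|s| ≤ R`, because
`s^2 ≤ ‖X‖^2`, `|t + G| ≤ ‖X‖` and `|G (s,t) - G (s,0)| ≤ 1` (`isProperMap_iff_isCompact_preimage`, `IsProperMap.isClosedMap`,
`Topology.IsClosedEmbedding.of_continuous_injective_isClosedMap`).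
`complete_of_closed`: `X ∘ γ` is Lipschitz on `[0,1)`, so the image filter of `𝓝[<] 1` is Cauchy, converges to `y ∈ closure (range X) = range X`,
`y = X p`, and `γ → p` (`Topology.IsInducing.tendsto_nhds_iff`).
-/

set_option autoImplicit false

namespace Pool.Agent.Helper75.MW

open Pool.Agent.Helper98.MW Topology Filter Set

private lemma emb_cont (G : ℝ × ℝ → ℝ) (h : Corr G) : Continuous (XX G) := by
  have hG : Continuous G := h.smooth.continuous
  unfold XX
  apply (PiLp.continuous_toLp 2 _).comp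
  refine continuous_pi fun i => ?_
  fin_cases i
  · exact continuous_fst.mul (Real.continuous_cos.comp continuous_snd)
  · exact continuous_fst.mul (Real.continuous_sin.comp continuous_snd)
  · exact continuous_snd.add hG

private lemma emb_norm (G : ℝ × ℝ → ℝ) (p : ℝ × ℝ) :
    p.1 ^ 2 + (p.2 + G p) ^ 2 = ‖XX G p‖ ^ 2 := by
  rw [EuclideanSpace.norm_sq_eq, Fin.sum_univ_three]
  simp only [XX, Real.norm_eq_abs, sq_abs]
  have h1 := Real.cos_sq_add_sin_sq p.2
  show p.1 ^ 2 + (p.2 + G p) ^ 2 = (p.1 * Real.cos p.2) ^ 2 + (p.1 * Real.sin p.2) ^ 2 +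
    (p.2 + G p) ^ 2
  linear_combination (-(p.1 ^ 2)) * h1

theorem XX_closedEmbedding (G : ℝ × ℝ → ℝ) (h : Corr G) : IsClosedEmbedding (XX G) := by
  have hc := emb_cont G h
  have hp : IsProperMap (XX G) := by
    rw [isProperMap_iff_isCompact_preimage]
    refine ⟨hc, fun K hK => ?_⟩
    obtain ⟨R, hR⟩ := hK.isBounded.exists_norm_le
    have hGc : Continuous fun s : ℝ => G (s, 0) := h.smooth.continuous.comp (by fun_prop)
    obtain ⟨C, hC⟩ := (isCompact_Icc (a := -R) (b := R)).exists_bound_of_continuousOn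
      hGc.continuousOn
    refine IsCompact.of_isClosed_subset
      ((isCompact_Icc (a := -R) (b := R)).prod (isCompact_Icc (a := -(R + C + 1)) (b := R + C + 1)))
      (hK.isClosed.preimage hc) ?_
    rintro ⟨s, t⟩ hst
    have h1 : ‖XX G (s, t)‖ ≤ R := hR _ hst
    have hR0 : 0 ≤ R := le_trans (norm_nonneg _) h1
    have h2 := emb_norm G (s, t)
    have h3 : ‖XX G (s, t)‖ ^ 2 ≤ R ^ 2 := by
      apply pow_le_pow_left₀ (norm_nonneg _) h1
    simp only at h2
    have hs : |s| ≤ R := abs_le_of_sq_le_sq (by nlinarith [sq_nonneg (t + G (s, t))]) hR0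
    have ht : |t + G (s, t)| ≤ R := abs_le_of_sq_le_sq (by nlinarith [sq_nonneg s]) hR0
    have hs' := abs_le.1 hs
    have ht' := abs_le.1 ht
    have h4 := h.osc s s t 0 rfl
    have h4' := abs_le.1 h4
    have h5 := hC s (mem_Icc.2 hs')
    rw [Real.norm_eq_abs] at h5
    have h5' := abs_le.1 h5
    refine mem_prod.2 ⟨mem_Icc.2 hs', mem_Icc.2 ⟨?_, ?_⟩⟩
    · show -(R + C + 1) ≤ t
      linarith [h4'.1, h4'.2, h5'.1, h5'.2, ht'.1, ht'.2]
    · show t ≤ R + C + 1
      linarith [h4'.1, h4'.2, h5'.1, h5'.2, ht'.1, ht'.2]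
  exact IsClosedEmbedding.of_continuous_injective_isClosedMap hc (XX_injective G h) hp.isClosedMap

end Pool.Agent.Helper75.MW
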