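import Pool.Agent.Helper75.MW.Defs

/-!
PROJECT MW, module F-01 (this file: everything except `corr_gg`, which is F-02). From `g (r, t)`, `r ≥ 0`, to `G (s, t) = g (|s|, t)` on the whole parameter plane.

`gg_pos`: near `p` with `0 < p.1` we have `|q.1| = q.1`. `gg_neg`: near `p` with `p.1 < 0` we have `|q.1| = -q.1`.
`gg_zero`: near `p` with `|p.1| < 1`: `|q.1| ≤ 1`, so `g (|q.1|, q.2) = 0`.
`gg_contDiff`: `contDiff_iff_contDiffAt`; cases `|p.1| < 1`, `0 < p.1`, `p.1 < 0` and `ContDiffAt.congr_of_eventuallyEq`.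
`fderiv_refl`: chain rule with the linear map `(s, t) ↦ (-s, t)`: `fderiv (g ∘ ρ) p v = fderiv g (ρ p) (ρ v)`, and
`H2 (g ∘ ρ) p v u = H2 g (ρ p) (ρ v) (ρ u)`; then `ρ (1,0) = -(1,0)`, `ρ (0,1) = (0,1)`.
`corr_gg`: the fields of `Corr` for `G = gg g`. `axis`: `g (0, t) = 0`. `osc`: `G (s,t) - G (s',t') = g (|s|,t) - g (|s|,t')`.
`bs`, `bt`, `neg`, `inner`, `outer`: if `|p.1| < 1` then `G = 0` near `p`, all derivatives vanish (`Filter.EventuallyEq.fderiv_eq`,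
`Filter.EventuallyEq.fderiv`), `lL = nN = 0`, `mM = -1`. If `1 ≤ p.1`: `G = g` near `p`; with `r = p.1`: `lL = r h11`, `mM = r^2 h12`,
`nN = r^3 h22` (`field_simp`), so `neg` is `r^4 (h11 h22 - h12^2) < 0` and `outer` is the second half of `Good`. If `p.1 ≤ -1`,
`r = -p.1`, `P = (r, p.2)`: `G_s = -g_r`, `G_t = g_t`, `H2 G p (1,0)(1,0) = H2 g P (1,0)(1,0)`,
`H2 G p (1,0)(0,1) = - H2 g P (1,0)(0,1)`, `H2 G p (0,1)(0,1) = H2 g P (0,1)(0,1)`, so `lL = - r h11`, `mM = r^2 h12`, `nN = - r^3 h22`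
(`p.1 = -r`). (`|p.1| < 1` or `1 ≤ p.1` or `p.1 ≤ -1`.)
-/

set_option autoImplicit false

namespace Pool.Agent.Helper75.MW

open Pool.Agent.Helper98.MW Topology Filter

/-- `g (|s|, t)`. -/
noncomputable def gg (g : ℝ × ℝ → ℝ) (p : ℝ × ℝ) : ℝ := g (|p.1|, p.2)

theorem gg_pos (g : ℝ × ℝ → ℝ) (p : ℝ × ℝ) (hp : 0 < p.1) : gg g =ᶠ[𝓝 p] g := by
  have h : ∀ᶠ q : ℝ × ℝ in 𝓝 p, 0 < q.1 :=
    continuous_fst.continuousAt.eventually (lt_mem_nhds hp)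
  filter_upwards [h] with q hq
  rw [gg, abs_of_pos hq]

theorem gg_neg (g : ℝ × ℝ → ℝ) (p : ℝ × ℝ) (hp : p.1 < 0) : gg g =ᶠ[𝓝 p] fun q => g (-q.1, q.2) := by
  have h : ∀ᶠ q : ℝ × ℝ in 𝓝 p, q.1 < 0 :=
    continuous_fst.continuousAt.eventually (gt_mem_nhds hp)
  filter_upwards [h] with q hq
  rw [gg, abs_of_neg hq]

theorem gg_zero (g : ℝ × ℝ → ℝ) (h0 : ∀ P : ℝ × ℝ, P.1 ≤ 1 → g P = 0) (p : ℝ × ℝ) (hp : |p.1| < 1) :
    gg g =ᶠ[𝓝 p] fun _ => 0 := by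
  have h : ∀ᶠ q : ℝ × ℝ in 𝓝 p, |q.1| < 1 :=
    (continuous_abs.comp continuous_fst).continuousAt.eventually (gt_mem_nhds hp)
  filter_upwards [h] with q hq
  exact h0 _ hq.le

theorem gg_contDiff (g : ℝ × ℝ → ℝ) (hg : ContDiff ℝ (⊤ : ℕ∞) g) (h0 : ∀ P : ℝ × ℝ, P.1 ≤ 1 → g P = 0) :
    ContDiff ℝ (⊤ : ℕ∞) (gg g) := by
  rw [contDiff_iff_contDiffAt]
  intro p
  rcases lt_trichotomy p.1 0 with h | h | h
  · refine ContDiffAt.congr_of_eventuallyEq ?_ (gg_neg g p h)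
    have h1 : ContDiff ℝ (⊤ : ℕ∞) (fun q : ℝ × ℝ => g (-q.1, q.2)) :=
      hg.comp (contDiff_fst.neg.prodMk contDiff_snd)
    exact h1.contDiffAt
  · refine ContDiffAt.congr_of_eventuallyEq ?_ (gg_zero g h0 p (by rw [h]; norm_num))
    exact contDiffAt_const
  · exact ContDiffAt.congr_of_eventuallyEq hg.contDiffAt (gg_pos g p h)

private noncomputable def rho : ℝ × ℝ →L[ℝ] ℝ × ℝ :=
  (-(ContinuousLinearMap.fst ℝ ℝ ℝ)).prod (ContinuousLinearMap.snd ℝ ℝ ℝ)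

private theorem rho_apply (p : ℝ × ℝ) : rho p = (-p.1, p.2) := rfl

private theorem H2_eq (f : ℝ × ℝ → ℝ) (hf : ContDiff ℝ (⊤ : ℕ∞) f) (p v u : ℝ × ℝ) :
    H2 f p v u = fderiv ℝ (fun q => fderiv ℝ f q u) p v := by
  have h1 : ContDiff ℝ (⊤ : ℕ∞) (fderiv ℝ f) := hf.fderiv_right (by simp)
  have hd : DifferentiableAt ℝ (fderiv ℝ f) p := (h1.differentiable (by simp)) p
  rw [H2, fderiv_clm_apply hd (differentiableAt_const u)]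
  simp

theorem fderiv_refl (g : ℝ × ℝ → ℝ) (hg : ContDiff ℝ (⊤ : ℕ∞) g) (p v : ℝ × ℝ) :
    fderiv ℝ (fun q : ℝ × ℝ => g (-q.1, q.2)) p v = fderiv ℝ g (-p.1, p.2) (-v.1, v.2) := by
  have hd : DifferentiableAt ℝ g (rho p) := (hg.differentiable (by simp)) _
  have h1 : fderiv ℝ (g ∘ rho) p = (fderiv ℝ g (rho p)).comp (fderiv ℝ rho p) :=
    fderiv_comp p hd rho.differentiableAt
  rw [rho.fderiv] at h1
  show fderiv ℝ (g ∘ rho) p v = _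
  rw [h1]
  rfl

theorem H2_refl (g : ℝ × ℝ → ℝ) (hg : ContDiff ℝ (⊤ : ℕ∞) g) (p v u : ℝ × ℝ) :
    H2 (fun q : ℝ × ℝ => g (-q.1, q.2)) p v u = H2 g (-p.1, p.2) (-v.1, v.2) (-u.1, u.2) := by
  have h0 : ContDiff ℝ (⊤ : ℕ∞) (fun q : ℝ × ℝ => g (-q.1, q.2)) :=
    hg.comp (contDiff_fst.neg.prodMk contDiff_snd)
  have hk : ContDiff ℝ (⊤ : ℕ∞) (fun q : ℝ × ℝ => fderiv ℝ g q (-u.1, u.2)) :=
    (hg.fderiv_right (by simp)).clm_apply contDiff_const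
  rw [H2_eq _ h0, H2_eq _ hg, ← fderiv_refl _ hk p v]
  congr 1
  congr 1
  funext q
  exact fderiv_refl g hg q u

end Pool.Agent.Helper75.MW
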