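import Pool.Agent.Helper75.MW.Even

/-!
PROJECT MW, module F-02 (this file: `corr_gg`). From `g (r, t)`, `r ≥ 0`, to `G (s, t) = g (|s|, t)` on the whole parameter plane.

`gg_pos`: near `p` with `0 < p.1` we have `|q.1| = q.1`. `gg_neg`: near `p` with `p.1 < 0` we have `|q.1| = -q.1`.
`gg_zero`: near `p` with `|p.1| < 1`: `|q.1| ≤ 1`, so `g (|q.1|, q.2) = 0`.
`gg_contDiff`: `contDiff_iff_contDiffAt`; cases `|p.1| < 1`, `0 < p.1`, `p.1 < 0` and `ContDiffAt.congr_of_eventuallyEq`.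
`fderiv_refl`: chain rule with the linear map `(s, t) ↦ (-s, t)`: `fderiv (g ∘ ρ) p v = fderiv g (ρ p) (ρ v)`, and
`H2 (g ∘ ρ) p v u = H2 g (ρ p) (ρ v) (ρ u)`; then `ρ (1,0) = -(1,0)`, `ρ (0,1) = (0,1)`.
`corr_gg`: the fields of `Corr` for `G = gg g`. `axis`: `g (0, t) = 0`. `osc`: `G (s,t) - G (s',t') = g (|s|,t) - g (|s|,t')`.
`bs`, `bt`, `neg`, `inner`, `outer`: if `|p.1| < 1` then `G = 0` near `p`, all derivatives vanish (`Filter.EventuallyEq.fderiv_eq`,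
`Filter.EventuallyEq.fderiv`), `lL = nN = 0`, `mM = -1`. If `1 ≤ p.1`: `G = g` near `p`; with `r = p.1`: `lL = r h11`, `mM = r^2 h12`,
`nN = r^3 h22` (`field_simp`), so `neg` is `r^4 (h11 h22 - h12^2) < 0` and `outer` is the second half of `Good`. If `p.1 ≤ -1`,
`r = -p.1`, `P = (r, p.2)`: `G_s = -g_r`, `G_t = g_t`, `H2 G p (1,0)(1,0) = H2 g P (1,0)(1,0)`,
`H2 G p (1,0)(0,1) = - H2 g P (1,0)(0,1)`, `H2 G p (0,1)(0,1) = H2 g P (0,1)(0,1)`, so `lL = - r h11`, `mM = r^2 h12`, `nN = - r^3 h22`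
(`p.1 = -r`). (`|p.1| < 1` or `1 ≤ p.1` or `p.1 ≤ -1`.)
-/

set_option autoImplicit false

namespace Pool.Agent.Helper75.MW

open Pool.Agent.Helper98.MW Topology Filter

private theorem cong_fderiv {f g : ℝ × ℝ → ℝ} {p : ℝ × ℝ} (h : f =ᶠ[𝓝 p] g) (v : ℝ × ℝ) :
    fderiv ℝ f p v = fderiv ℝ g p v := by
  rw [h.fderiv_eq]

private theorem cong_H2 {f g : ℝ × ℝ → ℝ} {p : ℝ × ℝ} (h : f =ᶠ[𝓝 p] g) (v u : ℝ × ℝ) :
    H2 f p v u = H2 g p v u := by
  unfold H2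
  rw [h.fderiv.fderiv_eq]

private theorem alg_neg {r A B C a b : ℝ} (hr : 0 < r)
    (h : A * (a / r + C / r ^ 2) < (B / r - (1 + b) / r ^ 2) ^ 2) :
    (r * A) * (r ^ 2 * a + r * C) < (r * B - (1 + b)) ^ 2 := by
  have h4 : 0 < r ^ 4 := by positivity
  have h1 := mul_lt_mul_of_pos_left h h4
  have e1 : r ^ 4 * (A * (a / r + C / r ^ 2)) = (r * A) * (r ^ 2 * a + r * C) := by
    field_simp
  have e2 : r ^ 4 * (B / r - (1 + b) / r ^ 2) ^ 2 = (r * B - (1 + b)) ^ 2 := by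
    field_simp
  rw [e1, e2] at h1
  exact h1

private theorem alg_outer {r A B C a b : ℝ} (hr : r ≠ 0)
    (h : 1 < A ^ 2 + 2 * (B / r - (1 + b) / r ^ 2) ^ 2 + (a / r + C / r ^ 2) ^ 2) :
    1 < (r * A / r) ^ 2 + 2 * ((r * B - (1 + b)) / r ^ 2) ^ 2
      + ((r ^ 2 * a + r * C) / r ^ 3) ^ 2 := by
  have e1 : r * A / r = A := by field_simp
  have e2 : (r * B - (1 + b)) / r ^ 2 = B / r - (1 + b) / r ^ 2 := by field_simp
  have e3 : (r ^ 2 * a + r * C) / r ^ 3 = a / r + C / r ^ 2 := by field_simp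
  rw [e1, e2, e3]
  exact h

private theorem alg_neg' {s A B C a b : ℝ} (hs : s < 0)
    (h : A * (a / (-s) + C / (-s) ^ 2) < (B / (-s) - (1 + b) / (-s) ^ 2) ^ 2) :
    (s * A) * (s ^ 2 * (-a) + s * C) < (s * (-B) - (1 + b)) ^ 2 := by
  have h1 := alg_neg (neg_pos.mpr hs) h
  have e1 : (s * A) * (s ^ 2 * (-a) + s * C) = (-s * A) * ((-s) ^ 2 * a + -s * C) := by ring
  have e2 : s * (-B) - (1 + b) = -s * B - (1 + b) := by ring
  rw [e1, e2]
  exact h1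

private theorem alg_outer' {s A B C a b : ℝ} (hs : s ≠ 0)
    (h : 1 < A ^ 2 + 2 * (B / (-s) - (1 + b) / (-s) ^ 2) ^ 2 + (a / (-s) + C / (-s) ^ 2) ^ 2) :
    1 < (s * A / s) ^ 2 + 2 * ((s * (-B) - (1 + b)) / s ^ 2) ^ 2
      + ((s ^ 2 * (-a) + s * C) / s ^ 3) ^ 2 := by
  have e1 : s * A / s = A := by field_simp
  have e2 : (s * (-B) - (1 + b)) / s ^ 2 = B / (-s) - (1 + b) / (-s) ^ 2 := by
    field_simp
  have e3 : (s ^ 2 * (-a) + s * C) / s ^ 3 = a / (-s) + C / (-s) ^ 2 := by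
    field_simp
  rw [e1, e2, e3]
  exact h

private theorem H2_const (p v u : ℝ × ℝ) : H2 (fun _ : ℝ × ℝ => (0 : ℝ)) p v u = 0 := by
  have h : fderiv ℝ (fun _ : ℝ × ℝ => (0 : ℝ)) = fun _ => 0 := by
    funext q
    simp
  unfold H2
  rw [h]
  simp

private theorem mid {g : ℝ × ℝ → ℝ} (h0 : ∀ P : ℝ × ℝ, P.1 ≤ 1 → g P = 0) {p : ℝ × ℝ}
    (hp : |p.1| < 1) : (∀ v, fderiv ℝ (gg g) p v = 0) ∧ ∀ v u, H2 (gg g) p v u = 0 := by
  have hE := gg_zero g h0 p hp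
  refine ⟨fun v => ?_, fun v u => ?_⟩
  · rw [cong_fderiv hE]
    simp
  · rw [cong_H2 hE, H2_const]

private theorem neg_vec : ((-(1 : ℝ), (0 : ℝ)) : ℝ × ℝ) = -(1, 0) := by
  simp

private theorem left {g : ℝ × ℝ → ℝ} (hg : ContDiff ℝ (⊤ : ℕ∞) g) {p : ℝ × ℝ} (hp : p.1 < 0) :
    fderiv ℝ (gg g) p (1, 0) = -fderiv ℝ g (-p.1, p.2) (1, 0) ∧
    fderiv ℝ (gg g) p (0, 1) = fderiv ℝ g (-p.1, p.2) (0, 1) ∧
    H2 (gg g) p (1, 0) (1, 0) = H2 g (-p.1, p.2) (1, 0) (1, 0) ∧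
    H2 (gg g) p (1, 0) (0, 1) = -H2 g (-p.1, p.2) (1, 0) (0, 1) ∧
    H2 (gg g) p (0, 1) (0, 1) = H2 g (-p.1, p.2) (0, 1) (0, 1) := by
  have hE := gg_neg g p hp
  refine ⟨?_, ?_, ?_, ?_, ?_⟩
  · rw [cong_fderiv hE, fderiv_refl g hg]
    simp only [neg_vec, map_neg]
  · rw [cong_fderiv hE, fderiv_refl g hg]
    simp only [neg_zero]
  · rw [cong_H2 hE, H2_refl g hg]
    simp only [H2, neg_vec, map_neg, _root_.neg_apply, neg_neg]
  · rw [cong_H2 hE, H2_refl g hg]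
    simp only [H2, neg_vec, map_neg, _root_.neg_apply, neg_zero]
  · rw [cong_H2 hE, H2_refl g hg]
    simp only [neg_zero]

private theorem tri (x : ℝ) : |x| < 1 ∨ 1 ≤ x ∨ x ≤ -1 := by
  rcases lt_or_ge |x| 1 with h | h
  · exact Or.inl h
  · rcases le_abs.mp h with h | h
    · exact Or.inr (Or.inl h)
    · exact Or.inr (Or.inr (by linarith))

theorem corr_gg (g : ℝ × ℝ → ℝ) (hg : ContDiff ℝ (⊤ : ℕ∞) g) (h0 : ∀ P : ℝ × ℝ, P.1 ≤ 1 → g P = 0)
    (hA : ∀ P : ℝ × ℝ, 1 ≤ P.1 → Adm g P) (ho : ∀ r t t' : ℝ, |g (r, t) - g (r, t')| ≤ 1) : Corr (gg g) := by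
  refine ⟨gg_contDiff g hg h0, ?_, ?_, ?_, ?_, ?_, ?_, ?_⟩
  · intro t
    exact h0 _ (by simp)
  · intro s s' t t' h
    simp only [gg, h]
    exact ho _ _ _
  · intro p
    rcases tri p.1 with h | h | h
    · rw [(mid h0 h).1]
      simp
    · rw [cong_fderiv (gg_pos g p (by linarith))]
      exact (hA p h).dr
    · rw [(left hg (by linarith)).1, abs_neg]
      exact (hA (-p.1, p.2) (by simp only; linarith)).dr
  · intro p
    rcases tri p.1 with h | h | h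
    · rw [(mid h0 h).1]
      simp
    · rw [cong_fderiv (gg_pos g p (by linarith))]
      exact (hA p h).dt
    · rw [(left hg (by linarith)).2.1]
      exact (hA (-p.1, p.2) (by simp only; linarith)).dt
  · intro p
    rcases tri p.1 with h | h | h
    · simp only [lL, nN, mM, (mid h0 h).1, (mid h0 h).2]
      norm_num
    · have hp : gg g =ᶠ[𝓝 p] g := gg_pos g p (by linarith)
      simp only [lL, nN, mM, cong_fderiv hp, cong_H2 hp]
      exact alg_neg (by linarith) (hA p h).good.1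
    · obtain ⟨h1, h2, h3, h4, h5⟩ := left hg (p := p) (by linarith)
      simp only [lL, nN, mM, h1, h2, h3, h4, h5]
      exact alg_neg' (by linarith) (hA (-p.1, p.2) (by simp only; linarith)).good.1
  · intro p h
    simp only [mM, (mid h0 h).1, (mid h0 h).2]
    norm_num
  · intro p hp1
    rcases tri p.1 with h | h | h
    · exact absurd h (not_lt.mpr hp1)
    · have hp : gg g =ᶠ[𝓝 p] g := gg_pos g p (by linarith)
      simp only [lL, nN, mM, cong_fderiv hp, cong_H2 hp]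
      have hs : p.1 ≠ 0 := by
        intro h0'
        rw [h0'] at h
        linarith
      exact alg_outer hs (hA p h).good.2
    · obtain ⟨h1, h2, h3, h4, h5⟩ := left hg (p := p) (by linarith)
      simp only [lL, nN, mM, h1, h2, h3, h4, h5]
      have hs : p.1 ≠ 0 := by
        intro h0'
        rw [h0'] at h
        linarith
      exact alg_outer' hs (hA (-p.1, p.2) (by simp only; linarith)).good.2

end Pool.Agent.Helper75.MW
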