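import Pool.Agent.Helper75.MW.Defs

/-!
PROJECT MW, module F-03 (this file: smoothness and injectivity). The corrugated helicoid is properly embedded, hence complete.

`XX_injective`: let `XX G (s,t) = XX G (s',t')`. Then `s^2 = s'^2` (sum of squares of the first two coordinates), so `|s| = |s'|`, and
`|t - t'| = |G (s',t') - G (s,t)| ≤ 1`. If `s = 0`, then `s' = 0` and `axis` gives `t = t'`. Otherwise
`s s' cos (t - t') = (s cos t)(s' cos t') + (s sin t)(s' sin t') = s^2`, with `|s s'| = s^2`, so `cos (t - t') = ±1`, and it is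
positive as `|t - t'| ≤ 1 < π / 2`; hence `t = t'` (`Real.cos_eq_one_iff_of_lt_of_lt`) and `s = s'`.
`XX_closedEmbedding`: `XX G` is continuous (it is smooth: `contDiff_euclidean`), and proper: the preimage of a compact `K` is closed and
is contained in `[-R, R] × [-(R + C + 1), R + C + 1]`, where `‖x‖ ≤ R` on `K` and `|G (s, 0)| ≤ C` for `|s| ≤ R`, because
`s^2 ≤ ‖X‖^2`, `|t + G| ≤ ‖X‖` and `|G (s,t) - G (s,0)| ≤ 1` (`isProperMap_iff_isCompact_preimage`, `IsProperMap.isClosedMap`,
`Topology.IsClosedEmbedding.of_continuous_injective_isClosedMap`).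
`complete_of_closed`: `X ∘ γ` is Lipschitz on `[0,1)`, so the image filter of `𝓝[<] 1` is Cauchy, converges to `y ∈ closure (range X) = range X`,
`y = X p`, and `γ → p` (`Topology.IsInducing.tendsto_nhds_iff`).
-/

set_option autoImplicit false

namespace Pool.Agent.Helper75.MW

open Pool.Agent.Helper98.MW Topology Filter Set

theorem XX_contDiff (G : ℝ × ℝ → ℝ) (hG : ContDiff ℝ (⊤ : ℕ∞) G) : ContDiff ℝ (⊤ : ℕ∞) (XX G) := by
  rw [contDiff_euclidean]
  intro i
  fin_cases i
  · exact contDiff_fst.mul (Real.contDiff_cos.comp contDiff_snd)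
  · exact contDiff_fst.mul (Real.contDiff_sin.comp contDiff_snd)
  · exact contDiff_snd.add hG

theorem XX_injective (G : ℝ × ℝ → ℝ) (h : Corr G) : Function.Injective (XX G) := by
  rintro ⟨s, t⟩ ⟨s', t'⟩ hX
  have h0 : s * Real.cos t = s' * Real.cos t' := congrArg (fun v : E3 => v 0) hX
  have h1 : s * Real.sin t = s' * Real.sin t' := congrArg (fun v : E3 => v 1) hX
  have h2 : t + G (s, t) = t' + G (s', t') := congrArg (fun v : E3 => v 2) hX
  have hsq : s ^ 2 = s' ^ 2 := by
    have e1 : s ^ 2 = (s * Real.cos t) ^ 2 + (s * Real.sin t) ^ 2 := by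
      have := Real.sin_sq_add_cos_sq t
      linear_combination (-s ^ 2) * this
    have e2 : s' ^ 2 = (s' * Real.cos t') ^ 2 + (s' * Real.sin t') ^ 2 := by
      have := Real.sin_sq_add_cos_sq t'
      linear_combination (-s' ^ 2) * this
    rw [e1, e2, h0, h1]
  have habs : |s| = |s'| := (sq_eq_sq_iff_abs_eq_abs s s').1 hsq
  have hosc := h.osc s s' t t' habs
  have htt : |t - t'| ≤ 1 := by
    have : t - t' = -(G (s, t) - G (s', t')) := by linarith
    rw [this, abs_neg]
    exact hosc
  have hlt := abs_le.1 htt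
  have hpi : (3 : ℝ) < Real.pi := Real.pi_gt_three
  rcases eq_or_ne s 0 with hs | hs
  · have hs' : s' = 0 := by
      rw [hs, abs_zero] at habs
      exact abs_eq_zero.1 habs.symm
    subst hs
    subst hs'
    rw [h.axis, h.axis, add_zero, add_zero] at h2
    rw [h2]
  · have hcos : s * s' * Real.cos (t - t') = s ^ 2 := by
      rw [Real.cos_sub]
      have e2 : s' ^ 2 = (s' * Real.cos t') ^ 2 + (s' * Real.sin t') ^ 2 := by
        have := Real.sin_sq_add_cos_sq t'
        linear_combination (-s' ^ 2) * this
      calc s * s' * (Real.cos t * Real.cos t' + Real.sin t * Real.sin t')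
          = (s * Real.cos t) * (s' * Real.cos t') + (s * Real.sin t) * (s' * Real.sin t') := by
            ring
        _ = (s' * Real.cos t') ^ 2 + (s' * Real.sin t') ^ 2 := by rw [h0, h1]; ring
        _ = s' ^ 2 := e2.symm
        _ = s ^ 2 := hsq.symm
    have hpos : 0 < Real.cos (t - t') :=
      Real.cos_pos_of_mem_Ioo ⟨by linarith [hlt.1], by linarith [hlt.2]⟩
    have hs2 : 0 < s ^ 2 := by positivity
    rcases abs_eq_abs.1 habs with he | he
    · rw [← he] at hcos
      have hc1 : Real.cos (t - t') = 1 := by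
        have : s ^ 2 * (Real.cos (t - t') - 1) = 0 := by linear_combination hcos
        rcases mul_eq_zero.1 this with h3 | h3
        · exact absurd h3 hs2.ne'
        · linarith
      have h4 : t - t' = 0 :=
        (Real.cos_eq_one_iff_of_lt_of_lt (by linarith [hlt.1]) (by linarith [hlt.2])).1 hc1
      have h5 : t = t' := by linarith
      rw [he, h5]
    · exfalso
      have he' : s' = -s := by linarith
      rw [he'] at hcos
      nlinarith [mul_pos hs2 hpos]

end Pool.Agent.Helper75.MW
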