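import Pool.Agent.Helper75.MW.Defs

/-!
PROJECT MW, module F-16. A properly embedded smooth surface is complete for its intrinsic (length) distance.
-/

set_option autoImplicit false

namespace Pool.Agent.Helper75.MW

open Topology Filter Set
open scoped ENNReal NNReal

/-- Every Cauchy sequence for the intrinsic distance (infimum of the lengths of curves) converges for it. -/
theorem complete_intrinsic (X : ℝ × ℝ → E3) (hX : IsClosedEmbedding X) (hs : ContDiff ℝ (⊤ : ℕ∞) X) (u : ℕ → ℝ × ℝ)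
    (hu : ∀ ε : ℝ≥0∞, 0 < ε → ∃ n, ∀ i ≥ n, ∀ j ≥ n, ∃ γ : ℝ → ℝ × ℝ, ContinuousOn γ (Icc 0 1) ∧
      γ 0 = u i ∧ γ 1 = u j ∧ eVariationOn (X ∘ γ) (Icc 0 1) < ε) :
    ∃ p, ∀ ε : ℝ≥0∞, 0 < ε → ∃ n, ∀ i ≥ n, ∃ γ : ℝ → ℝ × ℝ, ContinuousOn γ (Icc 0 1) ∧
      γ 0 = u i ∧ γ 1 = p ∧ eVariationOn (X ∘ γ) (Icc 0 1) < ε := by
  have h0 : (0 : ℝ) ∈ Icc (0 : ℝ) 1 := by simp
  have h1 : (1 : ℝ) ∈ Icc (0 : ℝ) 1 := by simp
  have hc : CauchySeq (X ∘ u) := by
    rw [EMetric.cauchySeq_iff]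
    intro ε hε
    obtain ⟨n, hn⟩ := hu ε hε
    refine ⟨n, fun i hi j hj => ?_⟩
    obtain ⟨γ, _, g0, g1, hl⟩ := hn i hi j hj
    have := eVariationOn.edist_le (X ∘ γ) h0 h1
    simp only [Function.comp_apply, g0, g1] at this
    exact lt_of_le_of_lt this hl
  obtain ⟨y, hy⟩ := cauchySeq_tendsto_of_complete hc
  have hyr : y ∈ range X := by
    refine hX.isClosed_range.mem_of_tendsto hy ?_
    exact Eventually.of_forall fun i => ⟨u i, rfl⟩
  obtain ⟨p, rfl⟩ := hyr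
  have hp : Tendsto u atTop (𝓝 p) := hX.isInducing.tendsto_nhds_iff.2 hy
  refine ⟨p, fun ε hε => ?_⟩
  obtain ⟨K, t, ht, hK⟩ := (hs.of_le (by exact_mod_cast le_top) : ContDiff ℝ 1 X).contDiffAt.exists_lipschitzOnWith (x := p)
  obtain ⟨δ, hδ, hball⟩ := Metric.mem_nhds_iff.1 ht
  have e1 : ∀ᶠ i in atTop, u i ∈ Metric.ball p δ := hp.eventually (Metric.ball_mem_nhds p hδ)
  have e2 : Tendsto (fun i => (K : ℝ≥0∞) * edist (u i) p) atTop (𝓝 0) := by
    have h2 : Tendsto (fun i => edist (u i) p) atTop (𝓝 0) := tendsto_iff_edist_tendsto_0.1 hp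
    have h3 := ENNReal.Tendsto.const_mul (a := (K : ℝ≥0∞)) h2 (Or.inr ENNReal.coe_ne_top)
    simpa using h3
  have e3 : ∀ᶠ i in atTop, (K : ℝ≥0∞) * edist (u i) p < ε := (tendsto_order.1 e2).2 ε hε
  obtain ⟨n, hn⟩ := eventually_atTop.1 (e1.and e3)
  refine ⟨n, fun i hi => ⟨AffineMap.lineMap (u i) p, ?_, by simp, by simp, ?_⟩⟩
  · exact (AffineMap.lineMap_continuous).continuousOn
  · obtain ⟨hb, hlt⟩ := hn i hi
    have hmaps : MapsTo (AffineMap.lineMap (u i) p : ℝ → ℝ × ℝ) (Icc 0 1) t := by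
      intro τ hτ
      apply hball
      have hseg : AffineMap.lineMap (u i) p τ ∈ segment ℝ (u i) p := by
        rw [segment_eq_image_lineMap]
        exact ⟨τ, hτ, rfl⟩
      exact (convex_ball p δ).segment_subset hb (Metric.mem_ball_self hδ) hseg
    have h4 := hK.comp_eVariationOn_le hmaps
    have h5 : eVariationOn (AffineMap.lineMap (u i) p : ℝ → ℝ × ℝ) (Icc 0 1) ≤ edist (u i) p := by
      have hL : LipschitzOnWith (nndist (u i) p) (AffineMap.lineMap (u i) p : ℝ → ℝ × ℝ) univ :=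
        (lipschitzWith_lineMap (𝕜 := ℝ) (u i) p).lipschitzOnWith
      have h6 := hL.comp_eVariationOn_le (f := (AffineMap.lineMap (u i) p : ℝ → ℝ × ℝ)) (g := (id : ℝ → ℝ))
        (s := Icc 0 1) (mapsTo_univ _ _)
      have h7 : eVariationOn (id : ℝ → ℝ) (Icc 0 1) ≤ 1 := by
        rw [eVariationOn_id_Icc]
        simp
      calc eVariationOn (AffineMap.lineMap (u i) p : ℝ → ℝ × ℝ) (Icc 0 1)
          ≤ (nndist (u i) p : ℝ≥0∞) * eVariationOn (id : ℝ → ℝ) (Icc 0 1) := h6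
        _ ≤ (nndist (u i) p : ℝ≥0∞) * 1 := by gcongr
        _ = edist (u i) p := by rw [mul_one, edist_nndist]
    calc eVariationOn (X ∘ (AffineMap.lineMap (u i) p : ℝ → ℝ × ℝ)) (Icc 0 1)
        ≤ (K : ℝ≥0∞) * eVariationOn (AffineMap.lineMap (u i) p : ℝ → ℝ × ℝ) (Icc 0 1) := h4
      _ ≤ (K : ℝ≥0∞) * edist (u i) p := by gcongr
      _ < ε := hlt

end Pool.Agent.Helper75.MW
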