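import Pool.Agent.Helper75.MW.Defs

/-!
PROJECT MW, module F-08 (this file: `w2_pos`, `NN_contDiff`, norms). The unit normal.

`w2_pos`: if `p.1 ≠ 0` clear; if `p.1 = 0` then `lL = nN = 0`, `mM = -(1 + G_t)` and `neg` gives `0 < (1 + G_t)^2`.
`inner` on `E3` is the sum of products of the coordinates (`PiLp.inner_apply`, `Fin.sum_univ_three`, or `EuclideanSpace.inner_eq_star_dotProduct`).
`NN_norm`: `‖Nn‖^2 = w2` by `sin^2 + cos^2 = 1`. The inner products are trigonometric identities (`ring_nf` and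
`Real.sin_sq_add_cos_sq`, or `linear_combination (..) * Real.sin_sq_add_cos_sq p.2`).
Smoothness: `Real.sqrt` is smooth at positive numbers (`ContDiff.sqrt` needs `≠ 0`), `ContDiff.inv`, `contDiff_euclidean`;
`fun q => fderiv ℝ G q u` is smooth: `ContDiff.fderiv_right`, `ContDiff.clm_apply`.
-/

set_option autoImplicit false

namespace Pool.Agent.Helper75.MW

open Pool.Agent.Helper98.MW

private lemma nr_dG (G : ℝ × ℝ → ℝ) (h : Corr G) (v : ℝ × ℝ) :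
    ContDiff ℝ (⊤ : ℕ∞) (fun p => fderiv ℝ G p v) := by
  have h1 : ContDiff ℝ (⊤ : ℕ∞) (fderiv ℝ G) := h.smooth.fderiv_right (by simp)
  exact h1.clm_apply contDiff_const

private lemma nr_w2 (G : ℝ × ℝ → ℝ) (h : Corr G) : ContDiff ℝ (⊤ : ℕ∞) (w2 G) := by
  unfold w2
  have h1 := nr_dG G h (1, 0)
  have h2 := nr_dG G h (0, 1)
  exact ((contDiff_fst.pow 2).mul (contDiff_const.add (h1.pow 2))).add
    ((contDiff_const.add h2).pow 2)

private lemma nr_Nn (G : ℝ × ℝ → ℝ) (h : Corr G) : ContDiff ℝ (⊤ : ℕ∞) (Nn G) := by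
  have h1 := nr_dG G h (1, 0)
  have h2 := nr_dG G h (0, 1)
  have hs : ContDiff ℝ (⊤ : ℕ∞) (fun p : ℝ × ℝ => Real.sin p.2) := Real.contDiff_sin.comp contDiff_snd
  have hc : ContDiff ℝ (⊤ : ℕ∞) (fun p : ℝ × ℝ => Real.cos p.2) := Real.contDiff_cos.comp contDiff_snd
  rw [contDiff_euclidean]
  intro i
  fin_cases i
  · exact ((contDiff_const.add h2).mul hs).sub ((contDiff_fst.mul h1).mul hc)
  · exact (((contDiff_const.add h2).mul hc).neg).sub ((contDiff_fst.mul h1).mul hs)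
  · exact contDiff_fst

private lemma nr_norm3 (a b c : ℝ) : ‖(!₂[a, b, c] : E3)‖ ^ 2 = a ^ 2 + b ^ 2 + c ^ 2 := by
  rw [EuclideanSpace.norm_sq_eq, Fin.sum_univ_three]
  simp

private lemma nr_Nn_norm (G : ℝ × ℝ → ℝ) (p : ℝ × ℝ) : ‖Nn G p‖ ^ 2 = w2 G p := by
  unfold Nn w2
  rw [nr_norm3]
  have h := Real.sin_sq_add_cos_sq p.2
  linear_combination ((1 + fderiv ℝ G p (0, 1)) ^ 2 + p.1 ^ 2 * fderiv ℝ G p (1, 0) ^ 2) * h

theorem w2_pos (G : ℝ × ℝ → ℝ) (h : Corr G) (p : ℝ × ℝ) : 0 < w2 G p := by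
  unfold w2
  by_cases hp : p.1 = 0
  · have h1 := h.neg p
    unfold lL mM at h1
    rw [hp, zero_mul, zero_mul, zero_mul, zero_sub, neg_sq] at h1
    rw [hp]
    nlinarith
  · have h1 : 0 < p.1 ^ 2 := by positivity
    have h2 : 0 ≤ fderiv ℝ G p (1, 0) ^ 2 := sq_nonneg _
    have h3 : 0 ≤ (1 + fderiv ℝ G p (0, 1)) ^ 2 := sq_nonneg _
    have h4 : 0 < p.1 ^ 2 * (1 + fderiv ℝ G p (1, 0) ^ 2) := by positivity
    linarith

theorem NN_contDiff (G : ℝ × ℝ → ℝ) (h : Corr G) : ContDiff ℝ (⊤ : ℕ∞) (NN G) := by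
  have h1 : ContDiff ℝ (⊤ : ℕ∞) (fun p => Real.sqrt (w2 G p)) :=
    (nr_w2 G h).sqrt (fun p => (w2_pos G h p).ne')
  have h2 : ContDiff ℝ (⊤ : ℕ∞) (fun p => (Real.sqrt (w2 G p))⁻¹) :=
    h1.inv (fun p => (Real.sqrt_pos.2 (w2_pos G h p)).ne')
  exact h2.smul (nr_Nn G h)

theorem NN_norm (G : ℝ × ℝ → ℝ) (h : Corr G) (p : ℝ × ℝ) : ‖NN G p‖ = 1 := by
  have h0 := w2_pos G h p
  have h1 : ‖Nn G p‖ = Real.sqrt (w2 G p) := by
    rw [← nr_Nn_norm, Real.sqrt_sq (norm_nonneg _)]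
  have h2 := Real.sqrt_pos.2 h0
  unfold NN
  rw [norm_smul, h1, norm_inv, Real.norm_of_nonneg h2.le, inv_mul_cancel₀ h2.ne']

theorem norm_Xs_sq (G : ℝ × ℝ → ℝ) (p : ℝ × ℝ) : ‖Xs G p‖ ^ 2 = 1 + fderiv ℝ G p (1, 0) ^ 2 := by
  unfold Xs
  rw [nr_norm3]
  linear_combination Real.sin_sq_add_cos_sq p.2

theorem norm_Xt_sq (G : ℝ × ℝ → ℝ) (p : ℝ × ℝ) : ‖Xt G p‖ ^ 2 = p.1 ^ 2 + (1 + fderiv ℝ G p (0, 1)) ^ 2 := by
  unfold Xt
  rw [nr_norm3]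
  linear_combination (p.1 ^ 2) * Real.sin_sq_add_cos_sq p.2

end Pool.Agent.Helper75.MW
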