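import Pool.Agent.Helper75.MW.Defs

/-!
PROJECT MW, module F-09 (this file: inner products, independence). The unit normal.

`w2_pos`: if `p.1 ≠ 0` clear; if `p.1 = 0` then `lL = nN = 0`, `mM = -(1 + G_t)` and `neg` gives `0 < (1 + G_t)^2`.
`inner` on `E3` is the sum of products of the coordinates (`PiLp.inner_apply`, `Fin.sum_univ_three`, or `EuclideanSpace.inner_eq_star_dotProduct`).
`NN_norm`: `‖Nn‖^2 = w2` by `sin^2 + cos^2 = 1`. The inner products are trigonometric identities (`ring_nf` and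
`Real.sin_sq_add_cos_sq`, or `linear_combination (..) * Real.sin_sq_add_cos_sq p.2`).
Smoothness: `Real.sqrt` is smooth at positive numbers (`ContDiff.sqrt` needs `≠ 0`), `ContDiff.inv`, `contDiff_euclidean`;
`fun q => fderiv ℝ G q u` is smooth: `ContDiff.fderiv_right`, `ContDiff.clm_apply`.
-/

set_option autoImplicit false

namespace Pool.Agent.Helper75.MW

open Pool.Agent.Helper98.MW

theorem inner_Nn (G : ℝ × ℝ → ℝ) (p : ℝ × ℝ) (x y z : ℝ) :
    inner ℝ (Nn G p) (!₂[x, y, z] : E3) =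
      ((1 + fderiv ℝ G p (0, 1)) * Real.sin p.2 - p.1 * fderiv ℝ G p (1, 0) * Real.cos p.2) * x +
      (-((1 + fderiv ℝ G p (0, 1)) * Real.cos p.2) - p.1 * fderiv ℝ G p (1, 0) * Real.sin p.2) * y + p.1 * z := by
  simp only [Nn, PiLp.inner_apply, Fin.sum_univ_three, RCLike.inner_apply, conj_trivial]
  simp
  ring

theorem inner_NN_Xs (G : ℝ × ℝ → ℝ) (p : ℝ × ℝ) : inner ℝ (NN G p) (Xs G p) = 0 := by
  rw [NN, Xs, real_inner_smul_left, inner_Nn]
  have h := Real.sin_sq_add_cos_sq p.2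
  have : ((1 + fderiv ℝ G p (0, 1)) * Real.sin p.2 - p.1 * fderiv ℝ G p (1, 0) * Real.cos p.2) * Real.cos p.2 +
      (-((1 + fderiv ℝ G p (0, 1)) * Real.cos p.2) - p.1 * fderiv ℝ G p (1, 0) * Real.sin p.2) * Real.sin p.2 +
      p.1 * fderiv ℝ G p (1, 0) = 0 := by
    linear_combination (-(p.1 * fderiv ℝ G p (1, 0))) * h
  rw [this, mul_zero]

theorem inner_NN_Xt (G : ℝ × ℝ → ℝ) (p : ℝ × ℝ) : inner ℝ (NN G p) (Xt G p) = 0 := by
  rw [NN, Xt, real_inner_smul_left, inner_Nn]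
  have h := Real.sin_sq_add_cos_sq p.2
  have : ((1 + fderiv ℝ G p (0, 1)) * Real.sin p.2 - p.1 * fderiv ℝ G p (1, 0) * Real.cos p.2) * -(p.1 * Real.sin p.2) +
      (-((1 + fderiv ℝ G p (0, 1)) * Real.cos p.2) - p.1 * fderiv ℝ G p (1, 0) * Real.sin p.2) * (p.1 * Real.cos p.2) +
      p.1 * (1 + fderiv ℝ G p (0, 1)) = 0 := by
    linear_combination (-(p.1 * (1 + fderiv ℝ G p (0, 1)))) * h
  rw [this, mul_zero]

theorem inner_NN_ss (G : ℝ × ℝ → ℝ) (p : ℝ × ℝ) :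
    inner ℝ (NN G p) (!₂[0, 0, H2 G p (1, 0) (1, 0)] : E3) = lL G p / Real.sqrt (w2 G p) := by
  rw [NN, real_inner_smul_left, inner_Nn, lL]
  ring

theorem inner_NN_st (G : ℝ × ℝ → ℝ) (p : ℝ × ℝ) :
    inner ℝ (NN G p) (!₂[-Real.sin p.2, Real.cos p.2, H2 G p (1, 0) (0, 1)] : E3) = mM G p / Real.sqrt (w2 G p) := by
  rw [NN, real_inner_smul_left, inner_Nn, mM]
  have h := Real.sin_sq_add_cos_sq p.2
  have : ((1 + fderiv ℝ G p (0, 1)) * Real.sin p.2 - p.1 * fderiv ℝ G p (1, 0) * Real.cos p.2) * -Real.sin p.2 +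
      (-((1 + fderiv ℝ G p (0, 1)) * Real.cos p.2) - p.1 * fderiv ℝ G p (1, 0) * Real.sin p.2) * Real.cos p.2 +
      p.1 * H2 G p (1, 0) (0, 1) = p.1 * H2 G p (1, 0) (0, 1) - (1 + fderiv ℝ G p (0, 1)) := by
    linear_combination (-(1 + fderiv ℝ G p (0, 1))) * h
  rw [this]
  ring

theorem inner_NN_tt (G : ℝ × ℝ → ℝ) (p : ℝ × ℝ) :
    inner ℝ (NN G p) (!₂[-(p.1 * Real.cos p.2), -(p.1 * Real.sin p.2), H2 G p (0, 1) (0, 1)] : E3) =
      nN G p / Real.sqrt (w2 G p) := by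
  rw [NN, real_inner_smul_left, inner_Nn, nN]
  have h := Real.sin_sq_add_cos_sq p.2
  have : ((1 + fderiv ℝ G p (0, 1)) * Real.sin p.2 - p.1 * fderiv ℝ G p (1, 0) * Real.cos p.2) * -(p.1 * Real.cos p.2) +
      (-((1 + fderiv ℝ G p (0, 1)) * Real.cos p.2) - p.1 * fderiv ℝ G p (1, 0) * Real.sin p.2) * -(p.1 * Real.sin p.2) +
      p.1 * H2 G p (0, 1) (0, 1) = p.1 ^ 2 * fderiv ℝ G p (1, 0) + p.1 * H2 G p (0, 1) (0, 1) := by
    linear_combination (p.1 ^ 2 * fderiv ℝ G p (1, 0)) * h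
  rw [this]
  ring

/-- `Xs` and `Xt` are linearly independent. -/
theorem XsXt_indep (G : ℝ × ℝ → ℝ) (h : Corr G) (p : ℝ × ℝ) (x y : ℝ) (hxy : x • Xs G p + y • Xt G p = 0) :
    x = 0 ∧ y = 0 := by
  have h0 : x * Real.cos p.2 + y * -(p.1 * Real.sin p.2) = 0 := by
    have := congrArg (fun v : E3 => v 0) hxy
    simpa [Xs, Xt] using this
  have h1 : x * Real.sin p.2 + y * (p.1 * Real.cos p.2) = 0 := by
    have := congrArg (fun v : E3 => v 1) hxy
    simpa [Xs, Xt] using this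
  have h2 : x * fderiv ℝ G p (1, 0) + y * (1 + fderiv ℝ G p (0, 1)) = 0 := by
    have := congrArg (fun v : E3 => v 2) hxy
    simpa [Xs, Xt] using this
  have hs := Real.sin_sq_add_cos_sq p.2
  have hx : x = 0 := by
    linear_combination Real.cos p.2 * h0 + Real.sin p.2 * h1 - x * hs
  refine ⟨hx, ?_⟩
  subst hx
  have hy : y * p.1 = 0 := by
    linear_combination (-Real.sin p.2) * h0 + Real.cos p.2 * h1 - y * p.1 * hs
  have hy2 : y * (1 + fderiv ℝ G p (0, 1)) = 0 := by linear_combination h2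
  rcases mul_eq_zero.mp hy with h | h
  · exact h
  · rcases mul_eq_zero.mp hy2 with h' | h'
    · exact h'
    · exfalso
      have e1 : lL G p = 0 := by rw [lL, h, zero_mul]
      have e2 : mM G p = 0 := by rw [mM, h, zero_mul, h', sub_zero]
      have := Corr.neg ‹Corr G› p
      rw [e1, e2] at this
      norm_num at this

end Pool.Agent.Helper75.MW
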