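import Pool.Agent.Helper75.MW.Defs

/-!
PROJECT MW, module F-13 (this file: `coords`, `principal_neg`, `principal_bound`). Principal curvatures (linear algebra).

`T = dX`, `S = dN`, `n` the unit normal, `l, m, k` the coefficients of the second fundamental form `- inner (S u) (T v)`.
`range_mem`: `T` is injective on a plane, so its range has dimension 2, is contained in `nᗮ`, which has dimension `3 - 1 = 2`;
so the range is `nᗮ`, and contains every `S v`.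
`exists_principal`: on `F = range T` (finrank 2) let `A (T v) = - S v` (`LinearEquiv.ofInjective`); `A` is symmetric: bilinear, check on the
basis `(1,0), (0,1)` (`hst`). Take `hA.eigenvectorBasis` and `hA.eigenvalues` (`LinearMap.IsSymmetric.eigenvectorBasis`,
`apply_eigenvectorBasis`), `v i = T⁻¹ (eigenvector i)`. (Or explicitly: orthonormalise and rotate by an angle.)
`principal_neg`: with `(1,0) = x v1 + y v2`, `(0,1) = z v1 + w v2` (the `T v i` are a basis of the range):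
`l = k1 x^2 + k2 y^2`, `m = k1 x z + k2 y w`, `k = k1 z^2 + k2 w^2`, so `l k - m^2 = k1 k2 (x w - y z)^2 < 0`.
`principal_bound`: `T u = x T v1 + y T v2`, `T v = z T v1 + w T v2`: `|inner (S u) (T v)| = |k1 x z + k2 y w| ≤ (|k1| + |k2|) ‖T u‖ ‖T v‖`
(`|x| ≤ ‖T u‖` etc.: `x = inner (T v1) (T u)`).
-/

set_option autoImplicit false

namespace Pool.Agent.Helper75.MW

private lemma pr_ips {T : ℝ × ℝ →L[ℝ] E3} {v₁ v₂ : ℝ × ℝ}
    (ho : Orthonormal ℝ ![T v₁, T v₂]) :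
    inner ℝ (T v₁) (T v₁) = (1 : ℝ) ∧ inner ℝ (T v₂) (T v₂) = (1 : ℝ) ∧
      inner ℝ (T v₁) (T v₂) = (0 : ℝ) ∧ inner ℝ (T v₂) (T v₁) = (0 : ℝ) := by
  have h1 : ‖T v₁‖ = 1 := ho.1 0
  have h2 : ‖T v₂‖ = 1 := ho.1 1
  have h3 : inner ℝ (T v₁) (T v₂) = (0 : ℝ) := ho.2 (i := 0) (j := 1) (by decide)
  refine ⟨?_, ?_, h3, ?_⟩
  · rw [real_inner_self_eq_norm_sq, h1]
    norm_num
  · rw [real_inner_self_eq_norm_sq, h2]
    norm_num
  · rw [real_inner_comm]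
    exact h3

private lemma pr_det {T : ℝ × ℝ →L[ℝ] E3} {v₁ v₂ : ℝ × ℝ}
    (ho : Orthonormal ℝ ![T v₁, T v₂]) : v₁.1 * v₂.2 - v₁.2 * v₂.1 ≠ 0 := by
  intro hD
  obtain ⟨h11, h22, h12, h21⟩ := pr_ips ho
  have key : ∀ a b : ℝ, a • v₁ + b • v₂ = 0 → b = 0 := by
    intro a b hab
    have h1 : T (a • v₁ + b • v₂) = 0 := by rw [hab, map_zero]
    rw [map_add, map_smul, map_smul] at h1
    have h2 : inner ℝ (T v₂) (a • T v₁ + b • T v₂) = (0 : ℝ) := by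
      rw [h1, inner_zero_right]
    rw [inner_add_right, real_inner_smul_right, real_inner_smul_right, h21, h22] at h2
    linarith
  have k1 : v₁.2 = 0 := by
    have h := key (v₂.2) (-v₁.2) (by
      apply Prod.ext
      · simp
        linarith
      · simp
        ring)
    linarith
  have k2 : v₁.1 = 0 := by
    refine key (-v₂.1) (v₁.1) ?_
    apply Prod.ext
    · simp
      ring
    · simp
      linarith
  have k3 : v₁ = 0 := Prod.ext k2 k1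
  rw [k3, map_zero, inner_zero_left] at h11
  exact zero_ne_one h11

private lemma pr_exists {T : ℝ × ℝ →L[ℝ] E3} {v₁ v₂ : ℝ × ℝ}
    (ho : Orthonormal ℝ ![T v₁, T v₂]) (v : ℝ × ℝ) : ∃ x y : ℝ, v = x • v₁ + y • v₂ := by
  have hD := pr_det ho
  refine ⟨(v.1 * v₂.2 - v.2 * v₂.1) / (v₁.1 * v₂.2 - v₁.2 * v₂.1),
    (v₁.1 * v.2 - v₁.2 * v.1) / (v₁.1 * v₂.2 - v₁.2 * v₂.1), ?_⟩
  apply Prod.ext
  · simp only [Prod.fst_add, Prod.smul_fst, smul_eq_mul]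
    rw [div_mul_eq_mul_div, div_mul_eq_mul_div, ← add_div, eq_div_iff hD]
    ring
  · simp only [Prod.snd_add, Prod.smul_snd, smul_eq_mul]
    rw [div_mul_eq_mul_div, div_mul_eq_mul_div, ← add_div, eq_div_iff hD]
    ring

theorem coords (T : ℝ × ℝ →L[ℝ] E3) (hT : Function.Injective T) (v₁ v₂ : ℝ × ℝ)
    (ho : Orthonormal ℝ ![T v₁, T v₂]) (v : ℝ × ℝ) :
    v = inner ℝ (T v₁) (T v) • v₁ + inner ℝ (T v₂) (T v) • v₂ := by
  obtain ⟨h11, h22, h12, h21⟩ := pr_ips ho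
  obtain ⟨x, y, hv⟩ := pr_exists ho v
  have hTv : T v = x • T v₁ + y • T v₂ := by rw [hv, map_add, map_smul, map_smul]
  have hx : inner ℝ (T v₁) (T v) = x := by
    rw [hTv, inner_add_right, real_inner_smul_right, real_inner_smul_right, h11, h12]
    ring
  have hy : inner ℝ (T v₂) (T v) = y := by
    rw [hTv, inner_add_right, real_inner_smul_right, real_inner_smul_right, h21, h22]
    ring
  rw [hx, hy]
  exact hv

private lemma pr_form {T S : ℝ × ℝ →L[ℝ] E3} {k₁ k₂ : ℝ} {v₁ v₂ : ℝ × ℝ}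
    (ho : Orthonormal ℝ ![T v₁, T v₂]) (h1 : S v₁ = -k₁ • T v₁) (h2 : S v₂ = -k₂ • T v₂)
    (x y z w : ℝ) :
    inner ℝ (S (x • v₁ + y • v₂)) (T (z • v₁ + w • v₂)) = -(k₁ * x * z + k₂ * y * w) := by
  obtain ⟨h11, h22, h12, h21⟩ := pr_ips ho
  rw [map_add, map_smul, map_smul, map_add, map_smul, map_smul, h1, h2]
  simp only [inner_add_left, inner_add_right, real_inner_smul_left, real_inner_smul_right,
    h11, h22, h12, h21]
  ring

theorem principal_neg (T S : ℝ × ℝ →L[ℝ] E3) (hT : Function.Injective T) (k₁ k₂ : ℝ) (v₁ v₂ : ℝ × ℝ)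
    (ho : Orthonormal ℝ ![T v₁, T v₂]) (h1 : S v₁ = -k₁ • T v₁) (h2 : S v₂ = -k₂ • T v₂) (u v : ℝ × ℝ)
    (hneg : inner ℝ (S u) (T u) * inner ℝ (S v) (T v) < inner ℝ (S u) (T v) ^ 2) : k₁ * k₂ < 0 := by
  obtain ⟨x, y, hu⟩ := pr_exists ho u
  obtain ⟨z, w, hv⟩ := pr_exists ho v
  rw [hu, hv, pr_form ho h1 h2, pr_form ho h1 h2, pr_form ho h1 h2] at hneg
  have h3 : k₁ * k₂ * (x * w - y * z) ^ 2 < 0 := by nlinarith [hneg]
  by_contra hc
  push Not at hc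
  have h4 : 0 ≤ k₁ * k₂ * (x * w - y * z) ^ 2 := mul_nonneg hc (sq_nonneg _)
  linarith

theorem principal_bound (T S : ℝ × ℝ →L[ℝ] E3) (hT : Function.Injective T) (k₁ k₂ : ℝ) (v₁ v₂ : ℝ × ℝ)
    (ho : Orthonormal ℝ ![T v₁, T v₂]) (h1 : S v₁ = -k₁ • T v₁) (h2 : S v₂ = -k₂ • T v₂) (u v : ℝ × ℝ) :
    |inner ℝ (S u) (T v)| ≤ (|k₁| + |k₂|) * (‖T u‖ * ‖T v‖) := by
  have n1 : ‖T v₁‖ = 1 := ho.1 0
  have n2 : ‖T v₂‖ = 1 := ho.1 1
  have b1 : ∀ a : ℝ × ℝ, |inner ℝ (T v₁) (T a)| ≤ ‖T a‖ := by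
    intro a
    have h := abs_real_inner_le_norm (T v₁) (T a)
    rwa [n1, one_mul] at h
  have b2 : ∀ a : ℝ × ℝ, |inner ℝ (T v₂) (T a)| ≤ ‖T a‖ := by
    intro a
    have h := abs_real_inner_le_norm (T v₂) (T a)
    rwa [n2, one_mul] at h
  have e : inner ℝ (S u) (T v) = -(k₁ * inner ℝ (T v₁) (T u) * inner ℝ (T v₁) (T v) +
      k₂ * inner ℝ (T v₂) (T u) * inner ℝ (T v₂) (T v)) := by
    conv_lhs => rw [coords T hT v₁ v₂ ho u, coords T hT v₁ v₂ ho v]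
    exact pr_form ho h1 h2 _ _ _ _
  rw [e, abs_neg]
  have c1 : |k₁ * inner ℝ (T v₁) (T u) * inner ℝ (T v₁) (T v)| ≤ |k₁| * (‖T u‖ * ‖T v‖) := by
    rw [abs_mul, abs_mul, mul_assoc]
    exact mul_le_mul_of_nonneg_left (mul_le_mul (b1 u) (b1 v) (abs_nonneg _) (norm_nonneg _))
      (abs_nonneg _)
  have c2 : |k₂ * inner ℝ (T v₂) (T u) * inner ℝ (T v₂) (T v)| ≤ |k₂| * (‖T u‖ * ‖T v‖) := by
    rw [abs_mul, abs_mul, mul_assoc]
    exact mul_le_mul_of_nonneg_left (mul_le_mul (b2 u) (b2 v) (abs_nonneg _) (norm_nonneg _))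
      (abs_nonneg _)
  calc |k₁ * inner ℝ (T v₁) (T u) * inner ℝ (T v₁) (T v) +
        k₂ * inner ℝ (T v₂) (T u) * inner ℝ (T v₂) (T v)|
      ≤ |k₁ * inner ℝ (T v₁) (T u) * inner ℝ (T v₁) (T v)| +
        |k₂ * inner ℝ (T v₂) (T u) * inner ℝ (T v₂) (T v)| := abs_add_le _ _
    _ ≤ |k₁| * (‖T u‖ * ‖T v‖) + |k₂| * (‖T u‖ * ‖T v‖) := add_le_add c1 c2
    _ = (|k₁| + |k₂|) * (‖T u‖ * ‖T v‖) := by ring

end Pool.Agent.Helper75.MW
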