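import Pool.Agent.Helper75.MW.Defs

/-!
PROJECT MW, module F-11 (this file: `range_mem`). Principal curvatures (linear algebra).

`T = dX`, `S = dN`, `n` the unit normal, `l, m, k` the coefficients of the second fundamental form `- inner (S u) (T v)`.
`range_mem`: `T` is injective on a plane, so its range has dimension 2, is contained in `nᗮ`, which has dimension `3 - 1 = 2`;
so the range is `nᗮ`, and contains every `S v`.
`exists_principal`: on `F = range T` (finrank 2) let `A (T v) = - S v` (`LinearEquiv.ofInjective`); `A` is symmetric: bilinear, check on the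
basis `(1,0), (0,1)` (`hst`). Take `hA.eigenvectorBasis` and `hA.eigenvalues` (`LinearMap.IsSymmetric.eigenvectorBasis`,
`apply_eigenvectorBasis`), `v i = T⁻¹ (eigenvector i)`. (Or explicitly: orthonormalise and rotate by an angle.)
`principal_neg`: with `(1,0) = x v1 + y v2`, `(0,1) = z v1 + w v2` (the `T v i` are a basis of the range):
`l = k1 x^2 + k2 y^2`, `m = k1 x z + k2 y w`, `k = k1 z^2 + k2 w^2`, so `l k - m^2 = k1 k2 (x w - y z)^2 < 0`.
`principal_bound`: `T u = x T v1 + y T v2`, `T v = z T v1 + w T v2`: `|inner (S u) (T v)| = |k1 x z + k2 y w| ≤ (|k1| + |k2|) ‖T u‖ ‖T v‖`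
(`|x| ≤ ‖T u‖` etc.: `x = inner (T v1) (T u)`).
-/

set_option autoImplicit false

namespace Pool.Agent.Helper75.MW

theorem range_mem (T S : ℝ × ℝ →L[ℝ] E3) (n : E3) (hn : ‖n‖ = 1) (hT : Function.Injective T)
    (hnT : ∀ v, inner ℝ n (T v) = 0) (hnS : ∀ v, inner ℝ n (S v) = 0) (v : ℝ × ℝ) : ∃ u, T u = S v := by
  have hn0 : n ≠ 0 := by
    intro h
    rw [h, norm_zero] at hn
    exact zero_ne_one hn
  have : Fact (Module.finrank ℝ E3 = 2 + 1) := ⟨finrank_euclideanSpace_fin⟩
  have hK : Module.finrank ℝ (Submodule.span ℝ {n})ᗮ = 2 := Submodule.finrank_orthogonal_span_singleton hn0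
  have hle : LinearMap.range (T : ℝ × ℝ →ₗ[ℝ] E3) ≤ (Submodule.span ℝ {n})ᗮ := by
    rintro _ ⟨w, rfl⟩
    exact Submodule.mem_orthogonal_singleton_iff_inner_right.2 (hnT w)
  have hr : Module.finrank ℝ (LinearMap.range (T : ℝ × ℝ →ₗ[ℝ] E3)) = 2 := by
    rw [LinearMap.finrank_range_of_inj (f := (T : ℝ × ℝ →ₗ[ℝ] E3)) hT, Module.finrank_prod, Module.finrank_self]
  have heq := Submodule.eq_of_le_of_finrank_eq hle (by rw [hr, hK])
  have hmem : S v ∈ LinearMap.range (T : ℝ × ℝ →ₗ[ℝ] E3) := by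
    rw [heq]
    exact Submodule.mem_orthogonal_singleton_iff_inner_right.2 (hnS v)
  obtain ⟨u, hu⟩ := hmem
  exact ⟨u, hu⟩

end Pool.Agent.Helper75.MW
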