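import Pool.Agent.Helper75.MW.Defs

/-!
PROJECT MW, module F-12 (this file: `exists_principal`). Principal curvatures (linear algebra).

`T = dX`, `S = dN`, `n` the unit normal, `l, m, k` the coefficients of the second fundamental form `- inner (S u) (T v)`.
`range_mem`: `T` is injective on a plane, so its range has dimension 2, is contained in `nᗮ`, which has dimension `3 - 1 = 2`;
so the range is `nᗮ`, and contains every `S v`.
`exists_principal`: on `F = range T` (finrank 2) let `A (T v) = - S v` (`LinearEquiv.ofInjective`); `A` is symmetric: bilinear, check on the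
basis `(1,0), (0,1)` (`hst`). Take `hA.eigenvectorBasis` and `hA.eigenvalues` (`LinearMap.IsSymmetric.eigenvectorBasis`,
`apply_eigenvectorBasis`), `v i = T⁻¹ (eigenvector i)`. (Or explicitly: orthonormalise and rotate by an angle.)
`principal_neg`: with `(1,0) = x v1 + y v2`, `(0,1) = z v1 + w v2` (the `T v i` are a basis of the range):
`l = k1 x^2 + k2 y^2`, `m = k1 x z + k2 y w`, `k = k1 z^2 + k2 w^2`, so `l k - m^2 = k1 k2 (x w - y z)^2 < 0`.
`principal_bound`: `T u = x T v1 + y T v2`, `T v = z T v1 + w T v2`: `|inner (S u) (T v)| = |k1 x z + k2 y w| ≤ (|k1| + |k2|) ‖T u‖ ‖T v‖`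
(`|x| ≤ ‖T u‖` etc.: `x = inner (T v1) (T u)`).
-/

set_option autoImplicit false

namespace Pool.Agent.Helper75.MW

theorem exists_principal (T S : ℝ × ℝ →L[ℝ] E3) (hT : Function.Injective T) (hr : ∀ v, ∃ u, T u = S v)
    (hst : inner ℝ (S (1, 0)) (T (0, 1)) = inner ℝ (S (0, 1)) (T (1, 0))) :
    ∃ (k₁ k₂ : ℝ) (v₁ v₂ : ℝ × ℝ), Orthonormal ℝ ![T v₁, T v₂] ∧ S v₁ = -k₁ • T v₁ ∧ S v₂ = -k₂ • T v₂ := by
  have hdec : ∀ u : ℝ × ℝ, u = u.1 • ((1 : ℝ), (0 : ℝ)) + u.2 • ((0 : ℝ), (1 : ℝ)) := by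
    intro u
    ext <;> simp
  have hsym : ∀ u v : ℝ × ℝ, inner ℝ (S u) (T v) = inner ℝ (T u) (S v) := by
    intro u v
    have h2 : inner ℝ (S (0, 1)) (T (1, 0)) = inner ℝ (T (1, 0)) (S (0, 1)) := real_inner_comm _ _
    have h3 : inner ℝ (S (1, 0)) (T (1, 0)) = inner ℝ (T (1, 0)) (S (1, 0)) := real_inner_comm _ _
    have h4 : inner ℝ (S (0, 1)) (T (0, 1)) = inner ℝ (T (0, 1)) (S (0, 1)) := real_inner_comm _ _
    have h5 : inner ℝ (S (1, 0)) (T (0, 1)) = inner ℝ (T (0, 1)) (S (1, 0)) := real_inner_comm _ _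
    rw [hdec u, hdec v]
    simp only [map_add, map_smul, inner_add_left, inner_add_right, real_inner_smul_left,
      real_inner_smul_right]
    rw [← h3, ← h4, ← h2, ← h5, hst]
  let F : Submodule ℝ E3 := LinearMap.range (T : ℝ × ℝ →ₗ[ℝ] E3)
  let e : (ℝ × ℝ) ≃ₗ[ℝ] F := LinearEquiv.ofInjective (T : ℝ × ℝ →ₗ[ℝ] E3) hT
  have heT : ∀ u, ((e u : F) : E3) = T u := fun u => rfl
  have hSF : ∀ u, S u ∈ F := by
    intro u
    obtain ⟨w, hw⟩ := hr u
    exact ⟨w, hw⟩
  let A : F →ₗ[ℝ] F :=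
    -((LinearMap.codRestrict F (S : ℝ × ℝ →ₗ[ℝ] E3) hSF).comp (e.symm : F →ₗ[ℝ] ℝ × ℝ))
  have hAe : ∀ x : F, ((A x : F) : E3) = -S (e.symm x) := fun x => rfl
  have hTs : ∀ x : F, T (e.symm x) = (x : E3) := by
    intro x
    rw [← heT, e.apply_symm_apply]
  have hA : A.IsSymmetric := by
    intro x y
    rw [Submodule.coe_inner, Submodule.coe_inner, hAe, hAe, inner_neg_left, inner_neg_right,
      ← hTs x, ← hTs y, hsym]
  have hn : Module.finrank ℝ F = 2 := by
    rw [← LinearEquiv.finrank_eq e]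
    simp
  let b := hA.eigenvectorBasis hn
  have hb : ∀ i, A (b i) = (hA.eigenvalues hn i : ℝ) • b i := by
    intro i
    exact hA.apply_eigenvectorBasis hn i
  have hS : ∀ i, S (e.symm (b i)) = -(hA.eigenvalues hn i) • T (e.symm (b i)) := by
    intro i
    have h1 := congrArg (fun x : F => (x : E3)) (hb i)
    simp only [hAe, Submodule.coe_smul] at h1
    rw [hTs, neg_smul, ← h1, neg_neg]
  refine ⟨hA.eigenvalues hn 0, hA.eigenvalues hn 1, e.symm (b 0), e.symm (b 1), ?_, hS 0, hS 1⟩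
  have ho : Orthonormal ℝ (fun i => ((b i : F) : E3)) :=
    b.orthonormal.comp_linearIsometry F.subtypeₗᵢ
  have he : (![T (e.symm (b 0)), T (e.symm (b 1))] : Fin 2 → E3) = fun i => ((b i : F) : E3) := by
    funext i
    fin_cases i
    · simp [hTs]
    · simp [hTs]
  rw [he]
  exact ho

end Pool.Agent.Helper75.MW
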