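import Pool.Agent.Helper75.MW.Defs

/-!
PROJECT MW, module F-10. The Weingarten equation for an arbitrary smooth map with a unit normal.

`q ↦ inner (N q) (F q)` is constant `0` where `F q = fderiv ℝ X q v`; differentiate (`HasFDerivAt.inner`,
`fderiv_inner_apply`): `inner (N p) (fderiv F p u) + inner (fderiv N p u) (F p) = 0`.
`inner_N_dN`: `inner (N q) (N q) = 1`; differentiate.
-/

set_option autoImplicit false

namespace Pool.Agent.Helper75.MW

theorem weingarten (N F : ℝ × ℝ → E3) (hN : ContDiff ℝ (⊤ : ℕ∞) N) (hF : ContDiff ℝ (⊤ : ℕ∞) F)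
    (h : ∀ q, inner ℝ (N q) (F q) = 0) (p u : ℝ × ℝ) :
    inner ℝ (fderiv ℝ N p u) (F p) = - inner ℝ (N p) (fderiv ℝ F p u) := by
  have hNd : DifferentiableAt ℝ N p := hN.differentiable (by simp) p
  have hFd : DifferentiableAt ℝ F p := hF.differentiable (by simp) p
  have h1 := fderiv_inner_apply ℝ hNd hFd u
  have h2 : (fun t => inner ℝ (N t) (F t)) = fun _ => (0 : ℝ) := funext h
  rw [h2] at h1
  simp only [fderiv_fun_const, Pi.zero_apply, ContinuousLinearMap.zero_apply] at h1
  linarith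

theorem inner_N_dN (N : ℝ × ℝ → E3) (hN : ContDiff ℝ (⊤ : ℕ∞) N) (h : ∀ q, ‖N q‖ = 1) (p u : ℝ × ℝ) :
    inner ℝ (N p) (fderiv ℝ N p u) = 0 := by
  have hNd : DifferentiableAt ℝ N p := hN.differentiable (by simp) p
  have h1 := fderiv_inner_apply ℝ hNd hNd u
  have h2 : (fun t => inner ℝ (N t) (N t)) = fun _ => (1 : ℝ) := by
    funext t
    rw [real_inner_self_eq_norm_sq, h t]
    norm_num
  rw [h2] at h1
  simp only [fderiv_fun_const, Pi.zero_apply, ContinuousLinearMap.zero_apply] at h1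
  rw [real_inner_comm (N p) (fderiv ℝ N p u)] at h1
  linarith

end Pool.Agent.Helper75.MW
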