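import Pool.Agent.Helper75.MW.EvenCorr
import Pool.Agent.Helper75.MW.Embed
import Pool.Agent.Helper75.MW.Intrinsic
import Pool.Agent.Helper75.MW.Deriv
import Pool.Agent.Helper75.MW.Normal
import Pool.Agent.Helper75.MW.NormalInner
import Pool.Agent.Helper75.MW.Weingarten
import Pool.Agent.Helper75.MW.Range
import Pool.Agent.Helper75.MW.Spectral
import Pool.Agent.Helper75.MW.Principal
import Pool.Agent.Helper75.MW.Bounds
import Pool.Agent.Helper98.MW.E.Corrugation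

/-!
PROJECT MW, module F-15. Assembly of the geometry and the final statement.

`second_form`: `fderiv ℝ (NN G) p u` against `Xs`, `Xt`: `weingarten` with `F = Xs G`, `Xt G`, the derivatives of `Xs`, `Xt`
(`Deriv`), and the inner products (`Normal`).
`immersion`: `fderiv (XX G) p (x, y) = x Xs + y Xt`, `XsXt_indep`.
`principal_exists`: `T = fderiv (XX G) p`, `S = fderiv (NN G) p`, `n = NN G p`: `range_mem`, `exists_principal`, `principal_neg`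
(`u = (1,0)`, `v = (0,1)`, `neg` divided by `w2`), `principal_bound` and `bound_inner`, `bound_outer` with `A = ‖Xs‖`, `B = ‖Xt‖`.
-/

set_option autoImplicit false

namespace Pool.Agent.Helper75.MW

open Pool.Agent.Helper98.MW Topology Filter Set

private theorem fderiv_apply (G : ℝ × ℝ → ℝ) (h : Corr G) (p v : ℝ × ℝ) :
    fderiv ℝ (XX G) p v = v.1 • Xs G p + v.2 • Xt G p := by
  have e : v = v.1 • ((1 : ℝ), (0 : ℝ)) + v.2 • ((0 : ℝ), (1 : ℝ)) := by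
    ext <;> simp
  conv_lhs => rw [e]
  rw [map_add, map_smul, map_smul, fderiv_XX_s G h.smooth p, fderiv_XX_t G h.smooth p]

theorem second_form (G : ℝ × ℝ → ℝ) (h : Corr G) (p : ℝ × ℝ) :
    inner ℝ (fderiv ℝ (NN G) p (1, 0)) (fderiv ℝ (XX G) p (1, 0)) = -(lL G p / Real.sqrt (w2 G p)) ∧
    inner ℝ (fderiv ℝ (NN G) p (1, 0)) (fderiv ℝ (XX G) p (0, 1)) = -(mM G p / Real.sqrt (w2 G p)) ∧
    inner ℝ (fderiv ℝ (NN G) p (0, 1)) (fderiv ℝ (XX G) p (1, 0)) = -(mM G p / Real.sqrt (w2 G p)) ∧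
    inner ℝ (fderiv ℝ (NN G) p (0, 1)) (fderiv ℝ (XX G) p (0, 1)) = -(nN G p / Real.sqrt (w2 G p)) := by
  have hN := NN_contDiff G h
  have hs := Xs_contDiff G h.smooth
  have ht := Xt_contDiff G h.smooth
  have ws := weingarten (NN G) (Xs G) hN hs (inner_NN_Xs G) p
  have wt := weingarten (NN G) (Xt G) hN ht (inner_NN_Xt G) p
  rw [fderiv_XX_s G h.smooth p, fderiv_XX_t G h.smooth p]
  refine ⟨?_, ?_, ?_, ?_⟩
  · rw [ws, fderiv_Xs_s G h.smooth p, inner_NN_ss]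
  · rw [wt, fderiv_Xt_s G h.smooth p, inner_NN_st]
  · rw [ws, fderiv_Xs_t G h.smooth p, inner_NN_st]
  · rw [wt, fderiv_Xt_t G h.smooth p, inner_NN_tt]

theorem immersion (G : ℝ × ℝ → ℝ) (h : Corr G) (p : ℝ × ℝ) : Function.Injective (fderiv ℝ (XX G) p) := by
  rw [injective_iff_map_eq_zero]
  intro v hv
  rw [fderiv_apply G h p v] at hv
  obtain ⟨h1, h2⟩ := XsXt_indep G h p v.1 v.2 hv
  ext
  · exact h1
  · exact h2

theorem inner_NN_fderiv (G : ℝ × ℝ → ℝ) (h : Corr G) (p v : ℝ × ℝ) :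
    inner ℝ (NN G p) (fderiv ℝ (XX G) p v) = 0 := by
  rw [fderiv_apply G h p v, inner_add_right, inner_smul_right, inner_smul_right, inner_NN_Xs, inner_NN_Xt,
    mul_zero, mul_zero, add_zero]

theorem principal_exists (G : ℝ × ℝ → ℝ) (h : Corr G) (p : ℝ × ℝ) :
    ∃ (k₁ k₂ : ℝ) (v₁ v₂ : ℝ × ℝ), Orthonormal ℝ ![fderiv ℝ (XX G) p v₁, fderiv ℝ (XX G) p v₂] ∧
      fderiv ℝ (NN G) p v₁ = -k₁ • fderiv ℝ (XX G) p v₁ ∧ fderiv ℝ (NN G) p v₂ = -k₂ • fderiv ℝ (XX G) p v₂ ∧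
      k₁ * k₂ < 0 ∧ 1 / 25 ≤ |k₁| + |k₂| := by
  have hT := immersion G h p
  have hr := range_mem (fderiv ℝ (XX G) p) (fderiv ℝ (NN G) p) (NN G p) (NN_norm G h p) hT
    (inner_NN_fderiv G h p) (inner_N_dN (NN G) (NN_contDiff G h) (NN_norm G h) p)
  obtain ⟨e11, e12, e21, e22⟩ := second_form G h p
  obtain ⟨k₁, k₂, v₁, v₂, ho, h1, h2⟩ := exists_principal (fderiv ℝ (XX G) p) (fderiv ℝ (NN G) p) hT hr
    (by rw [e12, e21])
  have hw := w2_pos G h p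
  have hW : 0 < Real.sqrt (w2 G p) := Real.sqrt_pos.2 hw
  have hneg : k₁ * k₂ < 0 := by
    refine principal_neg _ _ hT k₁ k₂ v₁ v₂ ho h1 h2 (1, 0) (0, 1) ?_
    rw [e11, e12, e22]
    have h3 := h.neg p
    have h4 : -(lL G p / Real.sqrt (w2 G p)) * -(nN G p / Real.sqrt (w2 G p)) =
        (lL G p * nN G p) / (Real.sqrt (w2 G p)) ^ 2 := by
      field_simp
    have h5 : (-(mM G p / Real.sqrt (w2 G p))) ^ 2 = mM G p ^ 2 / (Real.sqrt (w2 G p)) ^ 2 := by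
      rw [neg_sq, div_pow]
    rw [h4, h5]
    exact div_lt_div_of_pos_right h3 (by positivity)
  refine ⟨k₁, k₂, v₁, v₂, ho, h1, h2, hneg, ?_⟩
  have hb := principal_bound _ _ hT k₁ k₂ v₁ v₂ ho h1 h2
  have b1 := hb (1, 0) (1, 0)
  have b2 := hb (1, 0) (0, 1)
  have b3 := hb (0, 1) (0, 1)
  rw [e11, fderiv_XX_s G h.smooth p, abs_neg] at b1
  rw [e12, fderiv_XX_s G h.smooth p, fderiv_XX_t G h.smooth p, abs_neg] at b2
  rw [e22, fderiv_XX_t G h.smooth p, abs_neg] at b3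
  have hK : 0 ≤ |k₁| + |k₂| := by positivity
  rcases lt_or_ge |p.1| 1 with hp | hp
  · exact bound_inner p.1 (fderiv ℝ G p (1, 0)) (fderiv ℝ G p (0, 1)) (mM G p) _ ‖Xs G p‖ ‖Xt G p‖ hp.le (h.bs p)
      (h.bt p) hw (norm_nonneg _) (norm_nonneg _) (norm_Xs_sq G p) (norm_Xt_sq G p) hK (h.inner p hp) b2
  · exact bound_outer p.1 (fderiv ℝ G p (1, 0)) (fderiv ℝ G p (0, 1)) (lL G p) (mM G p) (nN G p) _ ‖Xs G p‖ ‖Xt G p‖
      hp (h.bs p) (h.bt p) hw (norm_nonneg _) (norm_nonneg _) (norm_Xs_sq G p) (norm_Xt_sq G p) hK (h.outer p hp)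
      b1 b2 b3

/-- Milnor's conjecture for complete saddle surfaces is false. -/
theorem milnor_false : ∃ (X N : ℝ × ℝ → EuclideanSpace ℝ (Fin 3)) (k₁ k₂ : ℝ × ℝ → ℝ) (c : ℝ),
    ContDiff ℝ (⊤ : ℕ∞) X ∧ ContDiff ℝ (⊤ : ℕ∞) N ∧ IsClosedEmbedding X ∧
    (∀ p, Function.Injective (fderiv ℝ X p)) ∧
    (∀ u : ℕ → ℝ × ℝ,
      (∀ ε : ENNReal, 0 < ε → ∃ n, ∀ i ≥ n, ∀ j ≥ n, ∃ γ : ℝ → ℝ × ℝ, ContinuousOn γ (Icc 0 1) ∧
        γ 0 = u i ∧ γ 1 = u j ∧ eVariationOn (X ∘ γ) (Icc 0 1) < ε) →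
      ∃ p, ∀ ε : ENNReal, 0 < ε → ∃ n, ∀ i ≥ n, ∃ γ : ℝ → ℝ × ℝ, ContinuousOn γ (Icc 0 1) ∧
        γ 0 = u i ∧ γ 1 = p ∧ eVariationOn (X ∘ γ) (Icc 0 1) < ε) ∧
    (∀ p, ‖N p‖ = 1) ∧ (∀ p v, inner ℝ (N p) (fderiv ℝ X p v) = 0) ∧
    (∀ p, ∃ v₁ v₂, Orthonormal ℝ ![fderiv ℝ X p v₁, fderiv ℝ X p v₂] ∧
      fderiv ℝ N p v₁ = -k₁ p • fderiv ℝ X p v₁ ∧ fderiv ℝ N p v₂ = -k₂ p • fderiv ℝ X p v₂) ∧
    (∀ p, k₁ p * k₂ p < 0) ∧ 0 < c ∧ (∀ p, c ≤ |k₁ p| + |k₂ p|) := by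
  obtain ⟨g, hg, h0, hA, ho⟩ := exists_corrugation
  have h := corr_gg g hg h0 hA ho
  have hX := XX_closedEmbedding (gg g) h
  choose k₁ k₂ v₁ v₂ hv h1 h2 hneg hbd using principal_exists (gg g) h
  exact ⟨XX (gg g), NN (gg g), k₁, k₂, 1 / 25, XX_contDiff _ h.smooth, NN_contDiff _ h, hX, immersion _ h,
    fun u hu => complete_intrinsic _ hX (XX_contDiff _ h.smooth) u hu, NN_norm _ h, inner_NN_fderiv _ h,
    fun p => ⟨v₁ p, v₂ p, hv p, h1 p, h2 p⟩, hneg, by norm_num, hbd⟩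

end Pool.Agent.Helper75.MW
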